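import Mathlib

namespace Pool.Agent.MP_961ca8_al.H3

/-- The Frobenius power: the ideal generated by the `q`-th powers of the elements of `I`. -/
def frobPow {R : Type} [CommRing R] (q : ℕ) (I : Ideal R) : Ideal R :=
  Ideal.span ((fun x => x ^ q) '' (I : Set R))

/-- Tight closure in characteristic `p`. -/
def tightClosure (p : ℕ) {R : Type} [CommRing R] (I : Ideal R) : Set R :=
  {f | ∃ c : R, (∀ P ∈ minimalPrimes R, c ∉ P) ∧
    ∃ e₀ : ℕ, ∀ e ≥ e₀, c * f ^ p ^ e ∈ frobPow (p ^ e) I}

/-- Every ideal is tightly closed. -/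
def WeaklyFRegular (p : ℕ) (R : Type) [CommRing R] : Prop :=
  ∀ I : Ideal R, tightClosure p I = (I : Set R)

/-- Every localization is weakly F-regular. -/
def FRegular (p : ℕ) (R : Type) [CommRing R] : Prop :=
  ∀ W : Submonoid R, WeaklyFRegular p (Localization W)

/-- The `n`-th power of the maximal ideal annihilates the zeroth local cohomology of `R / J`. -/
def Kills {R : Type} [CommRing R] [IsLocalRing R] (n : ℕ) (J : Ideal R) : Prop :=
  ∀ r : R, (∃ k : ℕ, ∀ x ∈ IsLocalRing.maximalIdeal R ^ k, x * r ∈ J) →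
    ∀ x ∈ IsLocalRing.maximalIdeal R ^ n, x * r ∈ J

end Pool.Agent.MP_961ca8_al.H3
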