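import Pool.Agent.MP_961ca8_al.H3.Good

namespace Pool.Agent.MP_961ca8_al.H3

/-- saturation with respect to one element -/
def sat {R : Type} [CommRing R] (s : R) (I : Ideal R) : Ideal R where
  carrier := {x | ∃ k : ℕ, s ^ k * x ∈ I}
  zero_mem' := ⟨0, by simp⟩
  add_mem' := by
    rintro x y ⟨k, hk⟩ ⟨l, hl⟩
    refine ⟨k + l, ?_⟩
    have : s ^ (k + l) * (x + y) = s ^ l * (s ^ k * x) + s ^ k * (s ^ l * y) := by ring
    rw [this]
    exact I.add_mem (I.mul_mem_left _ hk) (I.mul_mem_left _ hl)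
  smul_mem' := by
    rintro c x ⟨k, hk⟩
    exact ⟨k, by rw [smul_eq_mul, mul_left_comm]; exact I.mul_mem_left _ hk⟩

lemma mem_sat {R : Type} [CommRing R] {s x : R} {I : Ideal R} :
    x ∈ sat s I ↔ ∃ k : ℕ, s ^ k * x ∈ I := Iff.rfl

lemma le_sat {R : Type} [CommRing R] (s : R) (I : Ideal R) : I ≤ sat s I :=
  fun x hx => ⟨0, by simpa using hx⟩

lemma sat_unif {R : Type} [CommRing R] [IsNoetherianRing R] (s : R) (I : Ideal R) :
    ∃ K : ℕ, ∀ x ∈ sat s I, s ^ K * x ∈ I := by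
  obtain ⟨G, hG⟩ := (IsNoetherian.noetherian (sat s I) : (sat s I).FG)
  have h1 : ∀ g : R, ∃ k : ℕ, g ∈ G → s ^ k * g ∈ I := by
    intro g
    by_cases hg : g ∈ G
    · obtain ⟨k, hk⟩ : g ∈ sat s I := hG ▸ Ideal.subset_span hg
      exact ⟨k, fun _ => hk⟩
    · exact ⟨0, fun h => absurd h hg⟩
  choose k hk using h1
  refine ⟨G.sup k, fun x hx => ?_⟩
  rw [← hG] at hx
  induction hx using Submodule.span_induction with
  | mem g hg =>
    obtain ⟨d, hd⟩ := Nat.exists_eq_add_of_le (Finset.le_sup (f := k) hg)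
    rw [hd, pow_add, mul_comm (s ^ k g), mul_assoc]
    exact I.mul_mem_left _ (hk g hg)
  | zero => simp
  | add u v _ _ hu hv => rw [mul_add]; exact I.add_mem hu hv
  | smul t u _ hu => rw [smul_eq_mul, mul_left_comm]; exact I.mul_mem_left _ hu

lemma frob_sat {R : Type} [CommRing R] {s : R} {I J : Ideal R} {K : ℕ}
    (h : ∀ x ∈ J, s ^ K * x ∈ I) (q : ℕ) : ∀ x ∈ frobPow q J, s ^ (K * q) * x ∈ frobPow q I := by
  intro x hx
  induction hx using Submodule.span_induction with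
  | mem g hg =>
    obtain ⟨y, hy, rfl⟩ := hg
    rw [pow_mul, ← mul_pow]
    exact Ideal.subset_span ⟨_, h y hy, rfl⟩
  | zero => simp
  | add u v _ _ hu hv => rw [mul_add]; exact Ideal.add_mem _ hu hv
  | smul t u _ hu => rw [smul_eq_mul, mul_left_comm]; exact Ideal.mul_mem_left _ _ hu

/-- the local statement -/
theorem local_core (R : Type) [CommRing R] [IsNoetherianRing R] [IsLocalRing R]
    (p I : Ideal R) (hp : p.IsPrime) (s : R) (hs : s ∈ IsLocalRing.maximalIdeal R) (hsp : s ∉ p)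
    (hrad : I.radical = p) (hA : ∀ y ∉ p, ∃ (k : ℕ) (u : R), IsUnit u ∧ y - s ^ k * u ∈ p)
    (hB : ∀ e : ℕ, ∃ r : R, s ^ 4 ^ (e + 1) * r ∈ frobPow (2 ^ (e + 1)) I ∧
      ∀ j < 4 ^ (e + 1), s ^ j * r ∉ frobPow (2 ^ (e + 1)) I) :
    ∃ I₁ : Ideal R, I₁.IsPrimary ∧ ringKrullDim (R ⧸ I₁.radical) = 1 ∧
      ∃ C : ℕ, ∀ e n : ℕ, Kills n (frobPow (2 ^ e) I₁) → (2 ^ e) ^ 2 ≤ n + C * 2 ^ e := by
  have hIp : I ≤ p := hrad ▸ Ideal.le_radical
  have hr1 : (sat s I).radical = p := by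
    apply le_antisymm
    · rw [hp.radical_le_iff]
      rintro x ⟨k, hk⟩
      exact (hp.mem_or_mem (hIp hk)).resolve_left fun h => hsp (hp.mem_of_pow_mem _ h)
    · rw [← hrad]; exact Ideal.radical_mono (le_sat s I)
  have hm : IsLocalRing.maximalIdeal R ≤ p ⊔ Ideal.span {s} := by
    intro y hy
    by_cases hyp : y ∈ p
    · exact Ideal.mem_sup_left hyp
    obtain ⟨k, u, hu, h⟩ := hA y hyp
    rcases k with _ | k
    · exfalso
      have h1 : y - (y - s ^ 0 * u) ∈ IsLocalRing.maximalIdeal R :=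
        Ideal.sub_mem _ hy (IsLocalRing.le_maximalIdeal hp.ne_top h)
      simp only [pow_zero, one_mul, sub_sub_cancel] at h1
      exact h1 hu
    · have : y = (y - s ^ (k + 1) * u) + (s ^ k * u) * s := by ring
      rw [this]
      exact Ideal.add_mem _ (Ideal.mem_sup_left h)
        (Ideal.mem_sup_right (Ideal.mul_mem_left _ _ (Ideal.subset_span rfl)))
  refine ⟨sat s I, ?_, ?_, ?_⟩
  · rw [Ideal.isPrimary_iff]
    refine ⟨fun h => hp.ne_top (by rw [← hr1, h, Ideal.radical_top]), ?_⟩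
    intro x y hxy
    rw [hr1]
    by_cases hyp : y ∈ p
    · exact Or.inr hyp
    left
    obtain ⟨k, u, hu, h⟩ := hA y hyp
    rw [← hrad] at h
    obtain ⟨L, hL⟩ := h
    obtain ⟨w, hw⟩ : y ∣ (s ^ k * u) ^ L - (s ^ k * u - y) ^ L := by
      have := sub_dvd_pow_sub_pow (s ^ k * u) (s ^ k * u - y) L
      rwa [sub_sub_cancel] at this
    have h1 : (s ^ k * u - y) ^ L ∈ I := by
      rw [← neg_sub, neg_pow]; exact I.mul_mem_left _ hL
    have h2 : (s ^ k * u) ^ L * x ∈ sat s I := by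
      have : (s ^ k * u) ^ L * x = w * (x * y) + x * (s ^ k * u - y) ^ L := by
        linear_combination x * hw
      rw [this]
      exact Ideal.add_mem _ (Ideal.mul_mem_left _ _ hxy)
        (Ideal.mul_mem_left _ _ (le_sat s I h1))
    obtain ⟨l, hl⟩ := h2
    obtain ⟨v, hv⟩ := (hu.pow L).exists_left_inv
    refine ⟨l + k * L, ?_⟩
    have : s ^ (l + k * L) * x = v * (s ^ l * ((s ^ k * u) ^ L * x)) := by
      rw [mul_pow, ← pow_mul, pow_add]
      linear_combination (-(s ^ l * s ^ (k * L) * x)) * hv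
    rw [this]
    exact I.mul_mem_left _ hl
  · rw [hr1]
    have : Nontrivial (R ⧸ p) := Ideal.Quotient.nontrivial_iff.mpr hp.ne_top
    have : IsLocalRing (R ⧸ p) :=
      IsLocalRing.of_surjective' (Ideal.Quotient.mk p) Ideal.Quotient.mk_surjective
    have hsn : ¬ IsUnit (Ideal.Quotient.mk p s) := by
      intro h
      obtain ⟨v, hv⟩ := h.exists_left_inv
      obtain ⟨v, rfl⟩ := Ideal.Quotient.mk_surjective v
      rw [← map_mul, ← map_one (Ideal.Quotient.mk p), Ideal.Quotient.eq] at hv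
      have h1 : v * s - (v * s - 1) ∈ IsLocalRing.maximalIdeal R :=
        Ideal.sub_mem _ (Ideal.mul_mem_left _ _ hs) (IsLocalRing.le_maximalIdeal hp.ne_top hv)
      simp only [sub_sub_cancel] at h1
      exact h1 isUnit_one
    rw [ringKrullDim_eq_one_iff_of_isLocalRing_isDomain]
    refine ⟨fun h => ?_, fun x hx y hy => ?_⟩
    · have h0 : Ideal.Quotient.mk p s ≠ 0 := fun h0 => hsp (Ideal.Quotient.eq_zero_iff_mem.mp h0)
      obtain ⟨v, hv⟩ := h.mul_inv_cancel h0
      exact hsn (IsUnit.of_mul_eq_one v hv)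
    · obtain ⟨x, rfl⟩ := Ideal.Quotient.mk_surjective x
      obtain ⟨y, rfl⟩ := Ideal.Quotient.mk_surjective y
      have hxp : x ∉ p := fun h => hx (Ideal.Quotient.eq_zero_iff_mem.mpr h)
      obtain ⟨k, u, hu, h⟩ := hA x hxp
      have hsx : Ideal.Quotient.mk p s ∈ (Ideal.span {Ideal.Quotient.mk p x}).radical := by
        obtain ⟨v, hv⟩ := hu.exists_left_inv
        refine ⟨k, Ideal.mem_span_singleton'.mpr ⟨Ideal.Quotient.mk p v, ?_⟩⟩
        rw [← map_mul, ← map_pow, Ideal.Quotient.eq]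
        have : v * x - s ^ k = v * (x - s ^ k * u) := by linear_combination s ^ k * hv
        rw [this]
        exact p.mul_mem_left _ h
      have hy' : y ∈ IsLocalRing.maximalIdeal R := fun hu => hy (hu.map _)
      obtain ⟨a, ha, b, hb, rfl⟩ := Submodule.mem_sup.mp (hm hy')
      obtain ⟨t, rfl⟩ := Ideal.mem_span_singleton'.mp hb
      rw [map_add, Ideal.Quotient.eq_zero_iff_mem.mpr ha, zero_add, map_mul]
      exact Ideal.mul_mem_left _ _ hsx
  · obtain ⟨K, hK⟩ := sat_unif s I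
    refine ⟨K + 1, fun e n hn => ?_⟩
    rcases e with _ | e
    · simp; omega
    obtain ⟨r, h1, h2⟩ := hB e
    set q := 2 ^ (e + 1) with hq
    have hpr : p ≤ (frobPow q (sat s I)).radical := by
      rw [← hr1, Ideal.radical_le_radical_iff]
      intro x hx
      exact ⟨q, Ideal.subset_span ⟨x, hx, rfl⟩⟩
    obtain ⟨L, hL⟩ := Ideal.exists_radical_pow_le_of_fg (frobPow q (sat s I))
      (IsNoetherian.noetherian _)
    have h3 := hn r ⟨L + 4 ^ (e + 1), fun x hx => by
      have h4 := Ideal.sup_pow_add_le_pow_sup_pow (Ideal.pow_right_mono hm _ hx)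
      obtain ⟨a, ha, b, hb, rfl⟩ := Submodule.mem_sup.mp h4
      rw [Ideal.span_singleton_pow] at hb
      obtain ⟨t, rfl⟩ := Ideal.mem_span_singleton'.mp hb
      rw [add_mul, mul_assoc]
      exact Ideal.add_mem _ (Ideal.mul_mem_right _ _ (hL (Ideal.pow_right_mono hpr _ ha)))
        (Ideal.mul_mem_left _ _ (frobPow_mono _ (le_sat s I) h1))⟩
      (s ^ n) (Ideal.pow_mem_pow hs n)
    have h5 := frob_sat hK q _ h3
    rw [← mul_assoc, ← pow_add] at h5
    have h6 : ¬ K * q + n < 4 ^ (e + 1) := fun h => h2 _ h h5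
    have h7 : q ^ 2 = 4 ^ (e + 1) := by
      rw [hq, ← pow_mul, mul_comm, pow_mul]; norm_num
    rw [h7, add_mul]
    omega

/-- passage to the localization -/
theorem local_main (B : Type) [CommRing B] [IsNoetherianRing B] (m : Ideal B) [m.IsMaximal]
    (p I : Ideal B) (hp : p.IsPrime) (hpm : p ≤ m) (s : B) (hs : s ∈ m) (hsp : s ∉ p)
    (hrad : I.radical = p) (hA : ∀ y ∉ p, ∃ (k : ℕ) (u : B), u ∉ m ∧ y - s ^ k * u ∈ p)
    (hB : ∀ e : ℕ, ∃ r : B, s ^ 4 ^ (e + 1) * r ∈ frobPow (2 ^ (e + 1)) I ∧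
      ∀ d ∉ m, ∀ j < 4 ^ (e + 1), d * s ^ j * r ∉ frobPow (2 ^ (e + 1)) I) :
    ∃ I₁ : Ideal (Localization.AtPrime m), I₁.IsPrimary ∧
      ringKrullDim (Localization.AtPrime m ⧸ I₁.radical) = 1 ∧
      ∃ C : ℕ, ∀ e n : ℕ, Kills n (frobPow (2 ^ e) I₁) → (2 ^ e) ^ 2 ≤ n + C * 2 ^ e := by
  set R := Localization.AtPrime m
  have hd : Disjoint (m.primeCompl : Set B) p :=
    Set.disjoint_left.mpr fun x hx hxp => hx (hpm hxp)
  have hmem : ∀ y : B, algebraMap B R y ∈ p.map (algebraMap B R) ↔ y ∈ p := by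
    intro y
    rw [IsLocalization.algebraMap_mem_map_algebraMap_iff m.primeCompl]
    constructor
    · rintro ⟨w, hw, h⟩
      exact (hp.mem_or_mem h).resolve_left fun h' => hw (hpm h')
    · intro h; exact ⟨1, one_mem _, by simpa using h⟩
  refine local_core R (p.map (algebraMap B R)) (I.map (algebraMap B R))
    (IsLocalization.isPrime_of_isPrime_disjoint m.primeCompl R p hp hd) (algebraMap B R s)
    ((IsLocalization.AtPrime.to_map_mem_maximal_iff R m s).mpr hs)
    (fun h => hsp ((hmem s).mp h)) ?_ ?_ ?_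
  · rw [← IsLocalization.map_radical m.primeCompl, hrad]
  · intro y hy
    obtain ⟨⟨y₀, w⟩, rfl⟩ := IsLocalization.mk'_surjective m.primeCompl y
    simp only at hy ⊢
    rw [IsLocalization.mk'_mem_iff, hmem] at hy
    obtain ⟨k, u, hu, h⟩ := hA y₀ hy
    refine ⟨k, IsLocalization.mk' R u w,
      (IsLocalization.AtPrime.isUnit_mk'_iff R m u w).mpr hu, ?_⟩
    have e1 : IsLocalization.mk' R y₀ w - algebraMap B R s ^ k * IsLocalization.mk' R u w
        = IsLocalization.mk' R 1 w * algebraMap B R (y₀ - s ^ k * u) := by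
      rw [IsLocalization.mk'_eq_mul_mk'_one y₀, IsLocalization.mk'_eq_mul_mk'_one u, map_sub,
        map_mul, map_pow]
      ring
    rw [e1]
    exact Ideal.mul_mem_left _ _ ((hmem _).mpr h)
  · intro e
    obtain ⟨r, h1, h2⟩ := hB e
    refine ⟨algebraMap B R r, ?_, fun j hj h => ?_⟩
    · rw [← map_pow, ← map_mul]
      exact map_frobPow_le _ _ _ (Ideal.mem_map_of_mem _ h1)
    · have h3 := frobPow_map_le m.primeCompl R _ _ h
      rw [← map_pow, ← map_mul, IsLocalization.algebraMap_mem_map_algebraMap_iff m.primeCompl]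
        at h3
      obtain ⟨d, hd, h3⟩ := h3
      exact h2 d hd j hj (by rwa [mul_assoc])

end Pool.Agent.MP_961ca8_al.H3
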