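import Pool.Agent.MP_961ca8_al.H3.Good

namespace Pool.Agent.MP_961ca8_al.H3

open AddMonoidAlgebra

variable {A : Type} [CommRing A] (F : A)

/-- The extended Rees algebra of a principal ideal, inside Laurent polynomials. -/
def Rees : Subalgebra A (AddMonoidAlgebra A ℤ) where
  carrier := {y | ∀ j : ℤ, F ^ (-j).toNat ∣ y.coeff j}
  mul_mem' := by
    intro x y hx hy j
    rw [AddMonoidAlgebra.coeff_mul_apply_left]
    refine Finset.dvd_sum fun h _ => ?_
    refine dvd_trans ?_ (mul_dvd_mul (hx h) (hy _))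
    rw [← pow_add]
    exact pow_dvd_pow _ (by omega)
  add_mem' := by
    intro x y hx hy j
    rw [AddMonoidAlgebra.coeff_add, Finsupp.add_apply]
    exact dvd_add (hx j) (hy j)
  algebraMap_mem' := by
    intro r j
    rw [AddMonoidAlgebra.coe_algebraMap]
    by_cases h : j = 0
    · subst h; simp
    · simp [h]

lemma mem_Rees {y : AddMonoidAlgebra A ℤ} : y ∈ Rees F ↔ ∀ j : ℤ, F ^ (-j).toNat ∣ y.coeff j :=
  Iff.rfl

lemma single_mem (j : ℤ) (r : A) (h : F ^ (-j).toNat ∣ r) : single j r ∈ Rees F := by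
  intro i
  by_cases hi : i = j
  · subst hi; rw [coeff_single, Finsupp.single_eq_same]; exact h
  · rw [coeff_single, Finsupp.single_eq_of_ne hi]; exact dvd_zero _

/-- the variable -/
noncomputable def tt : Rees F := ⟨single 1 1, single_mem F _ _ (by simp)⟩
/-- the second variable -/
noncomputable def tt' : Rees F := ⟨single (-1) F, single_mem F _ _ (by simp)⟩

lemma alg_val (r : A) : ((algebraMap A (Rees F) r : Rees F) : AddMonoidAlgebra A ℤ)
    = single 0 r := by
  simp

lemma tt_mul : tt F * tt' F = algebraMap A (Rees F) F := by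
  apply Subtype.ext
  simp [tt, tt']

lemma rees_adjoin : Algebra.adjoin A {(single 1 1 : AddMonoidAlgebra A ℤ), single (-1) F}
    = Rees F := by
  apply le_antisymm
  · rw [Algebra.adjoin_le_iff]
    rintro _ (rfl | rfl)
    · exact (tt F).2
    · exact (tt' F).2
  · intro y hy
    rw [← sum_coeff_single y]
    refine Subalgebra.sum_mem _ fun j _ => ?_
    obtain ⟨z, hz⟩ := hy j
    rcases le_total 0 j with h | h
    · obtain ⟨n, rfl⟩ := Int.eq_ofNat_of_zero_le h
      have : (single (n : ℤ) (y.coeff n) : AddMonoidAlgebra A ℤ)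
          = algebraMap A _ (y.coeff n) * single 1 1 ^ n := by
        simp
      rw [this]
      exact Subalgebra.mul_mem _ (Subalgebra.algebraMap_mem _ _)
        (Subalgebra.pow_mem _ (Algebra.subset_adjoin (by simp)) _)
    · obtain ⟨n, hn⟩ := Int.eq_ofNat_of_zero_le (neg_nonneg.mpr h)
      have hj : j = -(n : ℤ) := by omega
      subst hj
      have : (single (-(n : ℤ)) (y.coeff (-(n : ℤ))) : AddMonoidAlgebra A ℤ)
          = algebraMap A _ z * single (-1) F ^ n := by
        have h0 : (algebraMap A (AddMonoidAlgebra A ℤ) z) = single 0 z := by simp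
        rw [hz, h0, single_pow, single_mul_single, neg_neg, Int.toNat_natCast, mul_comm z]
        congr 1
        simp
      rw [this]
      exact Subalgebra.mul_mem _ (Subalgebra.algebraMap_mem _ _)
        (Subalgebra.pow_mem _ (Algebra.subset_adjoin (by simp)) _)

lemma rees_noeth [IsNoetherianRing A] : IsNoetherianRing (Rees F) := by
  classical
  refine isNoetherianRing_of_fg ⟨{single 1 1, single (-1) F}, ?_⟩
  rw [← rees_adjoin]; simp

lemma rees_split (y : Rees F) :
    ∃ r : A, y - algebraMap A (Rees F) r ∈ Ideal.span {tt F, tt' F} := by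
  obtain ⟨y, hy⟩ := y
  have hy' := hy
  rw [← rees_adjoin] at hy'
  induction hy' using Algebra.adjoin_induction with
  | mem x hx =>
    rcases hx with rfl | rfl
    · exact ⟨0, by rw [map_zero, sub_zero]; exact Ideal.subset_span (Or.inl rfl)⟩
    · exact ⟨0, by rw [map_zero, sub_zero]; exact Ideal.subset_span (Or.inr rfl)⟩
  | algebraMap r =>
    refine ⟨r, ?_⟩
    have : (⟨_, hy⟩ : Rees F) = algebraMap A (Rees F) r := rfl
    rw [this, sub_self]; exact Ideal.zero_mem _
  | add x y hx hy' ihx ihy =>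
    rw [rees_adjoin] at hx hy'
    obtain ⟨r, hr⟩ := ihx hx
    obtain ⟨s, hs⟩ := ihy hy'
    refine ⟨r + s, ?_⟩
    have := Ideal.add_mem _ hr hs
    convert this using 1
    rw [map_add]
    have : (⟨x + y, hy⟩ : Rees F) = ⟨x, hx⟩ + ⟨y, hy'⟩ := rfl
    rw [this]; ring
  | mul x y hx hy' ihx ihy =>
    rw [rees_adjoin] at hx hy'
    obtain ⟨r, hr⟩ := ihx hx
    obtain ⟨s, hs⟩ := ihy hy'
    refine ⟨r * s, ?_⟩
    have := Ideal.add_mem _ (Ideal.mul_mem_right (⟨y, hy'⟩ : Rees F) _ hr)
      (Ideal.mul_mem_left _ (algebraMap A (Rees F) r) hs)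
    convert this using 1
    rw [map_mul]
    have : (⟨x * y, hy⟩ : Rees F) = ⟨x, hx⟩ * ⟨y, hy'⟩ := rfl
    rw [this]; ring

variable {A' : Type} [CommRing A'] (κ : A →+* A') (hκ : κ F = 0)

include hκ in
lemma kill {y : AddMonoidAlgebra A ℤ} (hy : y ∈ Rees F) {j : ℤ} (hj : j < 0) :
    κ (y.coeff j) = 0 := by
  obtain ⟨z, hz⟩ := hy j
  rw [hz, map_mul, map_pow, hκ, zero_pow (by omega), zero_mul]

/-- the quotient by both variables -/
noncomputable def rh : Rees F →+* A' where
  toFun y := κ ((y : AddMonoidAlgebra A ℤ).coeff 0)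
  map_one' := by
    rw [Subalgebra.coe_one, one_def, coeff_single, Finsupp.single_eq_same, map_one]
  map_zero' := by simp
  map_add' x y := by simp
  map_mul' x y := by
    rw [Subalgebra.coe_mul, AddMonoidAlgebra.coeff_mul_apply_left, Finsupp.sum, map_sum,
      Finset.sum_eq_single 0]
    · simp
    · intro h _ h0
      rw [map_mul]
      rcases lt_or_gt_of_ne h0 with h1 | h1
      · rw [kill F κ hκ x.2 h1, zero_mul]
      · rw [kill F κ hκ y.2 (by omega), mul_zero]
    · intro h
      rw [Finsupp.notMem_support_iff.mp h]; simp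

lemma rh_apply (y : Rees F) : rh F κ hκ y = κ ((y : AddMonoidAlgebra A ℤ).coeff 0) := rfl

lemma rh_alg (r : A) : rh F κ hκ (algebraMap A _ r) = κ r := by
  rw [rh_apply, alg_val]; simp

lemma rh_tt : rh F κ hκ (tt F) = 0 := by simp [rh_apply, tt]
lemma rh_tt' : rh F κ hκ (tt' F) = 0 := by
  rw [rh_apply, tt', coeff_single, Finsupp.single_eq_of_ne (by norm_num), map_zero]

/-- the component of weight `n` modulo `F` -/
noncomputable def lam (n : ℕ) : Rees F →+ A' where
  toFun y := κ ((y : AddMonoidAlgebra A ℤ).coeff n)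
  map_zero' := by simp
  map_add' x y := by simp

lemma lam_apply (n : ℕ) (y : Rees F) :
    lam F κ n y = κ ((y : AddMonoidAlgebra A ℤ).coeff n) := rfl

lemma lam_alg (n : ℕ) (r : A) (y : Rees F) :
    lam F κ n (algebraMap A _ r * y) = κ r * lam F κ n y := by
  rw [lam_apply, lam_apply, Subalgebra.coe_mul, alg_val, coeff_single_mul_apply]
  simp

include hκ in
lemma lam_tt (n : ℕ) (y : Rees F) : lam F κ n (tt F ^ (n + 1) * y) = 0 := by
  rw [lam_apply, Subalgebra.coe_mul, Subalgebra.coe_pow, tt, single_pow, coeff_single_mul_apply,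
    one_pow, one_mul]
  exact kill F κ hκ y.2 (by simp)

include hκ in
lemma lam_tt' (n m : ℕ) (y : Rees F) : lam F κ n (tt' F ^ (m + 1) * y) = 0 := by
  rw [lam_apply, Subalgebra.coe_mul, Subalgebra.coe_pow, tt', single_pow, coeff_single_mul_apply,
    map_mul, map_pow, hκ]
  simp

lemma lam_pow (n : ℕ) (y : Rees F) : lam F κ n (tt F ^ n * y) = rh F κ hκ y := by
  rw [lam_apply, rh_apply, Subalgebra.coe_mul, Subalgebra.coe_pow, tt, single_pow,
    coeff_single_mul_apply]
  simp

/-- selection of coefficients for Laurent polynomials -/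
noncomputable def selL (q : ℕ) (hq : 0 < q) (k : ℤ) (φ : A →+ A) :
    AddMonoidAlgebra A ℤ →+ AddMonoidAlgebra A ℤ where
  toFun y := ofCoeff (Finsupp.mapRange φ φ.map_zero
    (Finsupp.comapDomain (fun n : ℤ => q * n + k) y.coeff (by
      intro a _ b _ h
      have : (q : ℤ) * a = q * b := by simpa using h
      exact mul_left_cancel₀ (by exact_mod_cast hq.ne') this)))
  map_zero' := by ext; simp
  map_add' x y := by ext; simp

lemma coeff_selL (q : ℕ) (hq : 0 < q) (k : ℤ) (φ : A →+ A) (y : AddMonoidAlgebra A ℤ) (n : ℤ) :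
    (selL q hq k φ y).coeff n = φ (y.coeff (q * n + k)) := rfl

lemma good_rees [IsDomain A] (h2 : (2 : A) = 0) (hA : Good A) (hF : F ≠ 0) : Good (Rees F) := by
  intro c hc
  have hc' : (c : AddMonoidAlgebra A ℤ).coeff ≠ 0 := by
    intro h; apply hc; apply Subtype.ext; exact coeff_eq_zero.mp h
  obtain ⟨k, hk⟩ := Finsupp.support_nonempty_iff.mpr hc'
  rw [Finsupp.mem_support_iff] at hk
  obtain ⟨e₀, he⟩ := hA (F ^ k.toNat * (c : AddMonoidAlgebra A ℤ).coeff k)
    (mul_ne_zero (pow_ne_zero _ hF) hk)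
  obtain ⟨N, hN⟩ : ∃ N : ℕ, ∀ m ∈ (c : AddMonoidAlgebra A ℤ).coeff.support,
      (m - k).natAbs < N :=
    ⟨(c : AddMonoidAlgebra A ℤ).coeff.support.sup (fun m => (m - k).natAbs) + 1,
      fun m hm => Nat.lt_succ_of_le (Finset.le_sup (f := fun m => (m - k).natAbs) hm)⟩
  refine ⟨max e₀ N, fun e hle => ?_⟩
  obtain ⟨φ, hφ, h1⟩ := he e (le_trans (le_max_left _ _) hle)
  have hq : 0 < 2 ^ e := by positivity
  have hNq : N < 2 ^ e := lt_of_le_of_lt (le_trans (le_max_right _ _) hle) Nat.lt_two_pow_self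
  set ψ := selL (2 ^ e) hq k (φ.comp (AddMonoidHom.mulLeft (F ^ k.toNat))) with hψ
  have hco : ∀ y n, (ψ y).coeff n = φ (F ^ k.toNat * y.coeff ((2 ^ e : ℕ) * n + k)) :=
    fun y n => rfl
  have h2L : (2 : AddMonoidAlgebra A ℤ) = 0 := two_map (algebraMap A _) h2
  have hlin : ∀ x y, ψ (x ^ 2 ^ e * y) = x * ψ y := by
    intro x y
    induction x using AddMonoidAlgebra.induction_linear with
    | zero => rw [zero_pow hq.ne', zero_mul, map_zero, zero_mul]
    | add p q hp hq => rw [add_pow_two_pow h2L, add_mul, map_add, hp, hq, add_mul]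
    | single m r =>
      ext n
      rw [hco, single_pow, coeff_single_mul_apply, coeff_single_mul_apply, hco, mul_left_comm, hφ]
      congr 4
      simp only [nsmul_eq_mul]
      ring
  have hmem : ∀ y ∈ Rees F, ψ y ∈ Rees F := by
    intro y hy n
    obtain ⟨z, hz⟩ := hy ((2 ^ e : ℕ) * n + k)
    rw [hco, hz, ← mul_assoc, ← pow_add]
    have : (-n).toNat * 2 ^ e ≤ k.toNat + (-((2 ^ e : ℕ) * n + k : ℤ)).toNat := by
      rcases le_total 0 n with h | h
      · rw [Int.toNat_eq_zero.mpr (by omega)]; omega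
      · obtain ⟨m, hm⟩ := Int.eq_ofNat_of_zero_le (neg_nonneg.mpr h)
        have hn : n = -(m : ℤ) := by omega
        subst hn
        have : ((2 ^ e : ℕ) : ℤ) * -(m : ℤ) = -((m * 2 ^ e : ℕ) : ℤ) := by push_cast; ring
        rw [this, neg_neg, Int.toNat_natCast]
        omega
    obtain ⟨d, hd⟩ := Nat.exists_eq_add_of_le this
    rw [hd, pow_add, pow_mul, mul_assoc, hφ]
    exact dvd_mul_right _ _
  refine ⟨{ toFun := fun y => ⟨ψ y, hmem _ y.2⟩
            map_zero' := Subtype.ext (map_zero ψ)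
            map_add' := fun x y => Subtype.ext (map_add ψ _ _) }, fun x y => ?_, ?_⟩
  · exact Subtype.ext (hlin x y)
  · apply Subtype.ext
    change ψ c = 1
    ext n
    rw [hco, one_def, coeff_single]
    by_cases h : n = 0
    · subst h; simpa using h1
    · rw [Finsupp.single_eq_of_ne h]
      have : (c : AddMonoidAlgebra A ℤ).coeff ((2 ^ e : ℕ) * n + k) = 0 := by
        by_contra h'
        have := hN _ (Finsupp.mem_support_iff.mpr h')
        rw [add_sub_cancel_right, Int.natAbs_mul, Int.natAbs_natCast] at this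
        have h3 : 1 ≤ n.natAbs := by omega
        nlinarith
      rw [this, mul_zero, map_zero]

end Pool.Agent.MP_961ca8_al.H3
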