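import Pool.Agent.MP_961ca8_al.H3.Main
import Pool.Agent.MP_961ca8_al.H3.Rees
import Pool.Agent.MP_961ca8_al.H3.Local

set_option maxSynthPendingDepth 10

open Polynomial

namespace Pool.Agent.MP_961ca8_al.H3

abbrev S := Polynomial S0

noncomputable def FS : S := C F0

/-- reduction modulo the cubic -/
noncomputable def ka : S →+* T := mapRingHom (AdjoinRoot.mk F0)

lemma ka_F : ka FS = 0 := by simp [ka, FS]

lemma ka_X : ka X = X := by simp [ka]

lemma ka_surj : Function.Surjective ka :=
  Polynomial.map_surjective _ (AdjoinRoot.mk_surjective)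

lemma ka_ker {x : S} (h : ka x = 0) : FS ∣ x := by
  rw [FS, C_dvd_iff_dvd_coeff]
  intro i
  have := congrArg (fun p => coeff p i) h
  simp only [ka, coe_mapRingHom, coeff_map, coeff_zero] at this
  exact AdjoinRoot.mk_eq_zero.mp this

lemma FS_ne : FS ≠ 0 := by
  rw [FS, Ne, C_eq_zero]; exact F0_monic.ne_zero

lemma two_S : (2 : S) = 0 := two_poly two_S0

lemma good_S : Good S :=
  ((((good_F2.poly two_F2).poly (two_poly two_F2)).poly two_P0).poly two_S0)

noncomputable abbrev B := Rees FS

instance : IsNoetherianRing B := rees_noeth FS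

lemma two_B : (2 : B) = 0 := two_map (algebraMap S B) two_S

noncomputable def rB : B →+* T := rh FS ka ka_F

lemma rB_alg (x : S) : rB (algebraMap S B x) = ka x := rh_alg _ _ _ x

lemma rB_surj : Function.Surjective rB := fun x => by
  obtain ⟨y, rfl⟩ := ka_surj x
  exact ⟨_, rB_alg y⟩

lemma rB_span {y : B} (h : y ∈ Ideal.span {tt FS, tt' FS}) : rB y = 0 := by
  obtain ⟨u, v, rfl⟩ := Ideal.mem_span_pair.mp h
  rw [map_add, map_mul, map_mul, rB, rh_tt, rh_tt', mul_zero, mul_zero, add_zero]

lemma rB_ker {y : B} (h : rB y = 0) : y ∈ Ideal.span {tt FS, tt' FS} := by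
  obtain ⟨r, hr⟩ := rees_split FS y
  have h1 := rB_span hr
  rw [map_sub, h, rB_alg, zero_sub, neg_eq_zero] at h1
  obtain ⟨z, rfl⟩ := ka_ker h1
  have : y = (y - algebraMap S B (FS * z)) + (tt' FS * algebraMap S B z) * tt FS := by
    rw [map_mul, ← tt_mul]; ring
  rw [this]
  exact Ideal.add_mem _ hr (Ideal.mul_mem_left _ _ (Ideal.subset_span (Or.inl rfl)))

/-- the parameter line -/
noncomputable def piT : T →+* F2[X] := mapRingHom ev

lemma ev_surj : Function.Surjective ev := fun x => by
  have hx : x = 0 ∨ x = 1 := by revert x; decide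
  rcases hx with rfl | rfl
  · exact ⟨0, map_zero _⟩
  · exact ⟨1, map_one _⟩

lemma piT_surj : Function.Surjective piT := Polynomial.map_surjective _ ev_surj

noncomputable def piB : B →+* F2[X] := piT.comp rB

noncomputable def epsB : B →+* F2 := (evalRingHom 0).comp piB

noncomputable def mB : Ideal B := RingHom.ker epsB
noncomputable def pB : Ideal B := RingHom.ker piB
noncomputable def IT : Ideal T := Ideal.span {f 0, f 1, f 2}
noncomputable def IB : Ideal B := IT.comap rB
noncomputable def sB : B := algebraMap S B X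

instance : mB.IsMaximal := RingHom.ker_isMaximal_of_surjective epsB fun x => by
  have hx : x = 0 ∨ x = 1 := by revert x; decide
  rcases hx with rfl | rfl
  · exact ⟨0, map_zero _⟩
  · exact ⟨1, map_one _⟩

lemma piB_s : piB sB = X := by
  rw [piB, RingHom.comp_apply, sB, rB_alg, ka_X]; simp [piT]

lemma epsB_apply (y : B) : epsB y = ev ((rB y).coeff 0) := by
  simp [epsB, piB, piT, ← coeff_zero_eq_eval_zero]

lemma ker_ev (x : R0) (h : ev x = 0) : x ∈ Ideal.span {al, be, ga} := by
  have key : ∀ x : R0, x - AdjoinRoot.of F0 (C (C (ev x))) ∈ Ideal.span {al, be, ga} := by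
    intro x
    have hx := mon_closure x
    induction hx using AddSubmonoid.closure_induction with
    | mem y hy =>
      obtain ⟨i, j, k, rfl⟩ := hy
      simp only [mon, map_mul, map_pow, ev_al, ev_be, ev_ga, map_zero]
      rcases i with _ | i
      · rcases j with _ | j
        · rcases k with _ | k
          · simp
          · simp only [pow_zero, one_mul, pow_succ, mul_zero, sub_zero]
            exact Ideal.mul_mem_left _ _ (Ideal.subset_span (by simp))
        · simp only [pow_zero, one_mul, pow_succ, mul_zero, zero_mul, sub_zero]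
          exact Ideal.mul_mem_right _ _ (Ideal.mul_mem_left _ _ (Ideal.subset_span (by simp)))
      · simp only [pow_succ, mul_zero, zero_mul, sub_zero]
        exact Ideal.mul_mem_right _ _ (Ideal.mul_mem_right _ _
          (Ideal.mul_mem_left _ _ (Ideal.subset_span (by simp))))
    | zero => simp
    | add x y _ _ hx hy =>
      have := Ideal.add_mem _ hx hy
      convert this using 1
      simp only [map_add]; ring
  have := key x
  rwa [h, map_zero, map_zero, map_zero, sub_zero] at this

lemma mem_IT (W : Fin 3 → T) : dot W f ∈ IT :=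
  Ideal.add_mem _ (Ideal.add_mem _ (Ideal.mul_mem_left _ _ (Ideal.subset_span (by simp)))
    (Ideal.mul_mem_left _ _ (Ideal.subset_span (by simp))))
    (Ideal.mul_mem_left _ _ (Ideal.subset_span (by simp)))

lemma IT_mem {x : T} (h : x ∈ IT) : ∃ W, x = dot W f := by
  rw [IT, Ideal.mem_span_insert] at h
  obtain ⟨u, z, hz, rfl⟩ := h
  obtain ⟨v, w, rfl⟩ := Ideal.mem_span_pair.mp hz
  exact ⟨![u, v, w], by simp [dot, add_assoc]⟩

lemma rad_IT : IT.radical = RingHom.ker piT := by
  apply le_antisymm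
  · rw [(RingHom.ker_isPrime piT).radical_le_iff, IT, Ideal.span_le]
    rintro _ (rfl | rfl | rfl) <;>
      simp [piT, f, a, b, c, ev_al, ev_be, ev_ga]
  · intro x hx
    have h1 : x ∈ (Ideal.span {al, be, ga}).map (C : R0 →+* T) := by
      rw [Ideal.mem_map_C_iff]
      intro n
      apply ker_ev
      have := congrArg (fun p => coeff p n) ((RingHom.mem_ker).mp hx)
      simpa [piT] using this
    refine (Ideal.map_le_iff_le_comap.mpr ?_) h1
    rw [Ideal.span_le]
    rintro _ (rfl | rfl | rfl)
    · refine ⟨4, ?_⟩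
      convert mem_IT ![0, c ^ 2, b ^ 2] using 1
      change a ^ 4 = _
      simp only [dot, f, Matrix.cons_val_zero, Matrix.cons_val_one, Matrix.cons_val]
      linear_combination a * hc3
        + (a ^ 4 + a * b ^ 3 - b ^ 2 * c ^ 2 - X * b ^ 2 * c ^ 2) * two_T
    · refine ⟨4, ?_⟩
      convert mem_IT ![c ^ 2, 0, a ^ 2] using 1
      change b ^ 4 = _
      simp only [dot, f, Matrix.cons_val_zero, Matrix.cons_val_one, Matrix.cons_val]
      linear_combination b * hc3
        + (b ^ 4 + b * a ^ 3 - a ^ 2 * c ^ 2 - X * a ^ 2 * c ^ 2) * two_T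
    · refine ⟨4, ?_⟩
      convert mem_IT ![b ^ 2, a ^ 2, 0] using 1
      change c ^ 4 = _
      simp only [dot, f, Matrix.cons_val_zero, Matrix.cons_val_one, Matrix.cons_val]
      linear_combination c * hc3
        + (c * a ^ 3 + c * b ^ 3 - a ^ 2 * b ^ 2 - X * a ^ 2 * b ^ 2) * two_T

lemma rad_IB : IB.radical = pB := by
  rw [IB, ← Ideal.comap_radical, rad_IT, pB, piB, RingHom.comap_ker]

lemma hA_B (y : B) (hy : y ∉ pB) : ∃ (k : ℕ) (u : B), u ∉ mB ∧ y - sB ^ k * u ∈ pB := by
  have h0 : piB y ≠ 0 := hy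
  obtain ⟨g, hg, hg'⟩ := exists_eq_pow_rootMultiplicity_mul_and_not_dvd (piB y) h0 0
  obtain ⟨u, rfl⟩ := (piT_surj.comp rB_surj) g
  refine ⟨(piB y).rootMultiplicity 0, u, fun hu => hg' ?_, ?_⟩
  · rw [dvd_iff_isRoot]; exact hu
  · rw [pB, RingHom.mem_ker, map_sub, map_mul, map_pow, piB_s, sub_eq_zero]
    rw [map_zero, sub_zero] at hg
    exact hg

lemma hB_B (e : ℕ) : ∃ r : B, sB ^ 4 ^ (e + 1) * r ∈ frobPow (2 ^ (e + 1)) IB ∧
    ∀ d ∉ mB, ∀ j < 4 ^ (e + 1), d * sB ^ j * r ∉ frobPow (2 ^ (e + 1)) IB := by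
  obtain ⟨r, ⟨W, hW⟩, hr⟩ := mainT e
  obtain ⟨r, rfl⟩ := ka_surj r
  choose W' hW' using fun j => ka_surj (W j)
  choose f' hf' using fun j => ka_surj (f j)
  set q := 2 ^ (e + 1) with hq
  obtain ⟨n, hn⟩ : ∃ n, q = n + 1 := ⟨q - 1, (Nat.sub_add_cancel Nat.one_le_two_pow).symm⟩
  have hfI : ∀ j, algebraMap S B (f' j) ∈ IB := by
    intro j
    change rB _ ∈ IT
    rw [rB_alg, hf']
    exact Ideal.subset_span (by revert j; refine all3 ?_ ?_ ?_ <;> simp)
  have htI : tt FS ∈ IB := by
    change rB _ ∈ IT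
    rw [rB, rh_tt]; exact IT.zero_mem
  have hpw : ∀ y ∈ IB, y ^ q ∈ frobPow q IB := fun y hy => Ideal.subset_span ⟨y, hy, rfl⟩
  refine ⟨tt FS ^ n * algebraMap S B r, ?_, fun d hd j hj h => ?_⟩
  · obtain ⟨z, hz⟩ := ka_ker (x := X ^ 4 ^ (e + 1) * r - dot W' (fun j => f' j ^ q)) (by
      rw [map_sub, map_mul, map_pow, ka_X, hW, map_dot]
      simp only [map_pow, hW', hf']
      exact sub_self _)
    have h1 := congrArg (algebraMap S B) hz
    rw [map_sub, map_mul, map_mul, ← tt_mul, map_pow, map_dot] at h1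
    simp only [dot, map_pow] at h1
    have h2 : sB ^ 4 ^ (e + 1) * (tt FS ^ n * algebraMap S B r)
        = (tt FS ^ n * algebraMap S B (W' 0)) * algebraMap S B (f' 0) ^ q
          + (tt FS ^ n * algebraMap S B (W' 1)) * algebraMap S B (f' 1) ^ q
          + (tt FS ^ n * algebraMap S B (W' 2)) * algebraMap S B (f' 2) ^ q
          + (tt' FS * algebraMap S B z) * tt FS ^ q := by
      have h3 : tt FS ^ q = tt FS ^ n * tt FS := by rw [hn, pow_succ]
      rw [h3, sB]
      linear_combination tt FS ^ n * h1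
    rw [h2]
    exact Ideal.add_mem _ (Ideal.add_mem _ (Ideal.add_mem _
      (Ideal.mul_mem_left _ _ (hpw _ (hfI 0))) (Ideal.mul_mem_left _ _ (hpw _ (hfI 1))))
      (Ideal.mul_mem_left _ _ (hpw _ (hfI 2)))) (Ideal.mul_mem_left _ _ (hpw _ htI))
  · have hle : IB ≤ Ideal.span {algebraMap S B (f' 0), algebraMap S B (f' 1),
        algebraMap S B (f' 2), tt FS, tt' FS} := by
      intro y hy
      obtain ⟨V, hV⟩ := IT_mem hy
      choose V' hV' using fun j => rB_surj (V j)
      have h1 := rB_ker (y := y - dot V' (fun j => algebraMap S B (f' j))) (by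
        rw [map_sub, hV, map_dot]
        simp only [rB_alg, hV', hf']
        exact sub_self _)
      have h2 : y = (y - dot V' (fun j => algebraMap S B (f' j)))
          + dot V' (fun j => algebraMap S B (f' j)) := by ring
      rw [h2]
      refine Ideal.add_mem _ (Ideal.span_mono ?_ h1) ?_
      · rintro _ (rfl | rfl) <;> simp
      · exact Ideal.add_mem _ (Ideal.add_mem _
          (Ideal.mul_mem_left _ _ (Ideal.subset_span (by simp)))
          (Ideal.mul_mem_left _ _ (Ideal.subset_span (by simp))))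
          (Ideal.mul_mem_left _ _ (Ideal.subset_span (by simp)))
    have h1 := frobPow_span two_B (e + 1) _ (frobPow_mono _ hle h)
    have key : ∀ z ∈ Ideal.span ((fun x : B => x ^ 2 ^ (e + 1)) '' {algebraMap S B (f' 0),
        algebraMap S B (f' 1), algebraMap S B (f' 2), tt FS, tt' FS}),
        ∀ y, ∃ V, lam FS ka n (z * y) = dot V (fq (e + 1)) := by
      intro z hz
      induction hz using Submodule.span_induction with
      | mem z hz =>
        obtain ⟨x, hx, rfl⟩ := hz
        intro y
        rcases hx with rfl | rfl | rfl | rfl | rfl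
        · refine ⟨![lam FS ka n y, 0, 0], ?_⟩
          simp only
          rw [← map_pow, lam_alg, map_pow, hf']; simp [dot, fq, mul_comm]
        · refine ⟨![0, lam FS ka n y, 0], ?_⟩
          simp only
          rw [← map_pow, lam_alg, map_pow, hf']; simp [dot, fq, mul_comm]
        · refine ⟨![0, 0, lam FS ka n y], ?_⟩
          simp only
          rw [← map_pow, lam_alg, map_pow, hf']; simp [dot, fq, mul_comm]
        · refine ⟨0, ?_⟩
          simp only
          rw [← hq, hn, lam_tt FS ka ka_F]; simp [dot]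
        · refine ⟨0, ?_⟩
          simp only
          rw [← hq, hn, lam_tt' FS ka ka_F]; simp [dot]
      | zero => intro y; exact ⟨0, by simp [dot]⟩
      | add u v _ _ hu hv =>
        intro y
        obtain ⟨V, hV⟩ := hu y
        obtain ⟨V', hV'⟩ := hv y
        refine ⟨V + V', ?_⟩
        rw [add_mul, map_add, hV, hV']
        simp only [dot, Pi.add_apply]; ring
      | smul t u _ hu => intro y; rw [smul_eq_mul, mul_comm t, mul_assoc]; exact hu _
    obtain ⟨V, hV⟩ := key _ h1 1
    refine hr (rB d) V j hj ?_ ?_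
    · rw [← epsB_apply]; exact hd
    · have h3 : d * sB ^ j * (tt FS ^ n * algebraMap S B r) * 1
          = tt FS ^ n * (d * sB ^ j * algebraMap S B r) := by ring
      rw [h3, lam_pow FS ka ka_F] at hV
      rw [← hV]
      change _ = rB _
      rw [map_mul, map_mul, map_pow, sB, rB_alg, rB_alg, ka_X]

theorem final : ∃ (R : Type) (_ : CommRing R) (_ : IsNoetherianRing R) (_ : IsLocalRing R)
    (_ : CharP R 2), FRegular 2 R ∧ ∃ I : Ideal R, I.IsPrimary ∧
      ringKrullDim (R ⧸ I.radical) = 1 ∧
      ∃ C : ℕ, ∀ e n : ℕ, Kills n (frobPow (2 ^ e) I) → (2 ^ e) ^ 2 ≤ n + C * 2 ^ e := by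
  refine ⟨Localization.AtPrime mB, inferInstance,
    IsLocalization.isNoetherianRing mB.primeCompl _ inferInstance, inferInstance, ?_, ?_, ?_⟩
  · have h2 : ((2 : ℕ) : Localization.AtPrime mB) = 0 := by
      exact_mod_cast two_map (algebraMap B _) two_B
    exact (CharP.charP_iff_prime_eq_zero Nat.prime_two).mpr h2
  · exact ((good_rees FS two_S good_S FS_ne).unif.loc mB.primeCompl _).freg
  · refine local_main B mB pB IB (RingHom.ker_isPrime piB) ?_ sB ?_ ?_ rad_IB hA_B hB_B
    · intro y hy
      rw [mB, RingHom.mem_ker, epsB, RingHom.comp_apply, (RingHom.mem_ker).mp hy, map_zero]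
    · rw [mB, RingHom.mem_ker, epsB, RingHom.comp_apply, piB_s]; simp
    · rw [pB, RingHom.mem_ker, piB_s]; exact X_ne_zero

end Pool.Agent.MP_961ca8_al.H3
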