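import Pool.Agent.MP_961ca8_al.H3.Ring

open Polynomial

namespace Pool.Agent.MP_961ca8_al.H3

section sel
variable {A : Type*} [CommRing A]

/-- select the coefficients in one residue class and apply an additive map -/
noncomputable def selF (q k : ℕ) (φ : A →+ A) (p : A[X]) : A[X] :=
  p.sum (fun m a => if m % q = k then monomial (m / q) (φ a) else 0)

lemma coeff_selF {q k : ℕ} (hk : k < q) (φ : A →+ A) (p : A[X]) (n : ℕ) :
    (selF q k φ p).coeff n = φ (p.coeff (q * n + k)) := by
  have hq : 0 < q := by omega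
  rw [selF, coeff_sum, sum_def, Finset.sum_eq_single (q * n + k)]
  · rw [if_pos (by rw [Nat.mul_add_mod, Nat.mod_eq_of_lt hk]), coeff_monomial, if_pos]
    rw [Nat.mul_add_div hq, Nat.div_eq_of_lt hk, add_zero]
  · intro m _ hm
    split_ifs with h
    · rw [coeff_monomial, if_neg]
      intro h'
      apply hm
      rw [← h, ← h', Nat.div_add_mod]
    · simp
  · intro h
    rw [notMem_support_iff.mp h]
    simp

/-- `selF` as an additive map -/
noncomputable def sel {q k : ℕ} (hk : k < q) (φ : A →+ A) : A[X] →+ A[X] where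
  toFun := selF q k φ
  map_zero' := by ext n; simp [coeff_selF hk]
  map_add' x y := by ext n; simp [coeff_selF hk]

lemma coeff_sel {q k : ℕ} (hk : k < q) (φ : A →+ A) (p : A[X]) (n : ℕ) :
    (sel hk φ p).coeff n = φ (p.coeff (q * n + k)) := coeff_selF hk φ p n

end sel

abbrev T := Polynomial R0

lemma two_T : (2 : T) = 0 := two_poly two_R0

variable {Γ : Type} [AddCommGroup Γ] (w : Wt Γ)

/-- homogeneous components in `T` -/
noncomputable def prT (d : Γ) : T →+ T := sel (q := 1) (k := 0) one_pos (pr w d)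

lemma coeff_prT (d : Γ) (x : T) (n : ℕ) : (prT w d x).coeff n = pr w d (x.coeff n) := by
  rw [prT, coeff_sel]; simp

/-- homogeneous elements of `T` -/
def HT (d : Γ) (x : T) : Prop := ∀ n, Hm w d (x.coeff n)

lemma ht_prT (d : Γ) (x : T) : HT w d (prT w d x) := fun n => by
  rw [coeff_prT]; exact hm_pr w d _

lemma HT.zero (d : Γ) : HT w d 0 := fun n => by rw [coeff_zero]; exact Hm.zero w d

lemma ht_X_pow (n : ℕ) : HT w 0 (X ^ n) := fun m => by
  rw [coeff_X_pow]; split_ifs
  · exact hm_one w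
  · exact Hm.zero w 0

variable {w}

lemma Hm.toT {d : Γ} {x : R0} (hx : Hm w d x) : HT w d (C x) := fun n => by
  rw [coeff_C]; split_ifs
  · exact hx
  · exact Hm.zero w d

lemma HT.add {d : Γ} {x y : T} (hx : HT w d x) (hy : HT w d y) : HT w d (x + y) := fun n => by
  rw [coeff_add]; exact (hx n).add (hy n)

lemma HT.sub {d : Γ} {x y : T} (hx : HT w d x) (hy : HT w d y) : HT w d (x - y) := fun n => by
  rw [coeff_sub]; exact (hx n).sub (hy n)

lemma Hm.sum {ι : Type*} {d : Γ} (s : Finset ι) (f : ι → R0) (h : ∀ i ∈ s, Hm w d (f i)) :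
    Hm w d (∑ i ∈ s, f i) :=
  Finset.sum_induction f (Hm w d) (fun _ _ => Hm.add) (Hm.zero w d) h

lemma HT.mul {d e : Γ} {x y : T} (hx : HT w d x) (hy : HT w e y) : HT w (d + e) (x * y) :=
  fun n => by
    rw [coeff_mul]; exact Hm.sum _ _ fun c _ => (hx _).mul (hy _)

lemma HT.cast {d e : Γ} {x : T} (hx : HT w d x) (h : d = e) : HT w e x := h ▸ hx

lemma HT.pow {d : Γ} {x : T} (hx : HT w d x) (n : ℕ) : HT w (n • d) (x ^ n) := by
  induction n with
  | zero => simpa using ht_X_pow w 0
  | succ n ih => rw [pow_succ, succ_nsmul]; exact ih.mul hx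

lemma HT.pr_mul {e : Γ} {y : T} (hy : HT w e y) (d : Γ) (x : T) :
    prT w d (x * y) = prT w (d - e) x * y := by
  ext n
  rw [coeff_prT, coeff_mul, coeff_mul, map_sum]
  exact Finset.sum_congr rfl fun c _ => by rw [(hy _).pr_mul, coeff_prT]

lemma HT.pr_self {d : Γ} {x : T} (hx : HT w d x) : prT w d x = x := by
  ext n; rw [coeff_prT, (hx n).pr_self]

lemma prT_X_pow_mul (d : Γ) (n : ℕ) (x : T) : prT w d (X ^ n * x) = X ^ n * prT w d x := by
  rw [mul_comm, (ht_X_pow w n).pr_mul, sub_zero, mul_comm]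

/-- the standard grading -/
def wZ : Wt ℤ := ⟨1, 1, 1, rfl, rfl⟩

noncomputable def a : T := C al
noncomputable def b : T := C be
noncomputable def c : T := C ga

lemma mon_mem (K : ℕ) (hK : 1 ≤ K) : ∀ k i j : ℕ, i + j + k = 2 * K →
    mon i j k ∈ Ideal.span {al ^ K, be ^ K, ga ^ 2 * (al * be) ^ (K - 1)} := by
  intro k
  induction k using Nat.strong_induction_on with
  | _ k ih =>
    intro i j h
    by_cases h3 : 3 ≤ k
    · obtain ⟨k', rfl⟩ := Nat.exists_eq_add_of_le h3
      have : mon i j (3 + k') = mon (i + 3) j k' + mon i (j + 3) k' := by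
        simp only [mon, pow_add, ga3]; ring
      rw [this]
      exact Ideal.add_mem _ (ih k' (by omega) _ _ (by omega)) (ih k' (by omega) _ _ (by omega))
    · by_cases hi : K ≤ i
      · obtain ⟨i', rfl⟩ := Nat.exists_eq_add_of_le hi
        have : mon (K + i') j k = (al ^ i' * be ^ j * ga ^ k) * al ^ K := by
          simp only [mon, pow_add]; ring
        rw [this]
        exact Ideal.mul_mem_left _ _ (Ideal.subset_span (by simp))
      · by_cases hj : K ≤ j
        · obtain ⟨j', rfl⟩ := Nat.exists_eq_add_of_le hj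
          have : mon i (K + j') k = (al ^ i * be ^ j' * ga ^ k) * be ^ K := by
            simp only [mon, pow_add]; ring
          rw [this]
          exact Ideal.mul_mem_left _ _ (Ideal.subset_span (by simp))
        · have h1 : i = K - 1 := by omega
          have h2 : j = K - 1 := by omega
          have h4 : k = 2 := by omega
          have : mon i j k = ga ^ 2 * (al * be) ^ (K - 1) := by
            rw [h1, h2, h4, mon, mul_pow]; ring
          rw [this]
          exact Ideal.subset_span (by simp)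

/-- Frobenius kills the first cohomology of the structure sheaf -/
lemma sq_mem (K : ℕ) (hK : 1 ≤ K) (x : T) (hx : HT wZ (2 * K : ℕ) x) :
    ∃ u v : T, x ^ 2 = a ^ (2 * K) * u + b ^ (2 * K) * v := by
  have h1 : x ∈ (Ideal.span {al ^ K, be ^ K, ga ^ 2 * (al * be) ^ (K - 1)}).map
      (C : R0 →+* T) := by
    rw [Ideal.mem_map_C_iff]
    intro n
    rw [← (hx n).pr_self]
    refine pr_ind wZ _ (fun y => y ∈ _) (Ideal.zero_mem _) (fun _ _ => Ideal.add_mem _) ?_ _
    intro i j k h
    refine mon_mem K hK k i j ?_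
    simp only [wZ, nsmul_eq_mul, mul_one] at h
    exact_mod_cast h
  rw [Ideal.map_span, Set.image_insert_eq, Set.image_insert_eq, Set.image_singleton,
    Ideal.mem_span_insert] at h1
  obtain ⟨p, z, hz, rfl⟩ := h1
  rw [Ideal.mem_span_pair] at hz
  obtain ⟨r, t, rfl⟩ := hz
  obtain ⟨K', rfl⟩ := Nat.exists_eq_add_of_le hK
  have hc : (c : T) ^ 3 = a ^ 3 + b ^ 3 := by
    simp only [a, b, c, ← map_pow, ← map_add, ga3]
  refine ⟨p ^ 2 + t ^ 2 * c * a * b ^ (2 * K'), r ^ 2 + t ^ 2 * c * b * a ^ (2 * K'), ?_⟩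
  simp only [map_mul, map_pow, Nat.add_sub_cancel_left]
  change (p * a ^ (1 + K') + (r * b ^ (1 + K') + t * (c ^ 2 * (a * b) ^ K'))) ^ 2 = _
  have h2 := two_T
  linear_combination (t ^ 2 * c * (a * b) ^ (2 * K')) * hc
    + (p * a ^ (1 + K') * r * b ^ (1 + K') + p * a ^ (1 + K') * t * (c ^ 2 * (a * b) ^ K')
      + r * b ^ (1 + K') * t * (c ^ 2 * (a * b) ^ K')) * h2

/-- truncation in the parameter -/
abbrev Tq (τ : ℕ) := T ⧸ Ideal.span {(X : T) ^ τ}

/-- the projection to the truncation -/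
noncomputable def mq (τ : ℕ) : T →+* Tq τ := Ideal.Quotient.mk _

lemma mq_eq {τ : ℕ} {x y : T} : mq τ x = mq τ y ↔ ∃ z, x = y + X ^ τ * z := by
  rw [mq, Ideal.Quotient.eq, Ideal.mem_span_singleton]
  constructor
  · rintro ⟨z, hz⟩; exact ⟨z, by linear_combination hz⟩
  · rintro ⟨z, hz⟩; exact ⟨z, by linear_combination hz⟩

lemma mq_eq_coeff {τ : ℕ} {x y : T} : mq τ x = mq τ y ↔ ∀ n < τ, x.coeff n = y.coeff n := by
  rw [mq, Ideal.Quotient.eq, Ideal.mem_span_singleton, X_pow_dvd_iff]
  simp only [coeff_sub, sub_eq_zero]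

lemma mq_surj (τ : ℕ) : Function.Surjective (mq τ) := Ideal.Quotient.mk_surjective

lemma regPairT (τ K : ℕ) : RegPair (mq τ (a ^ K)) (mq τ (b ^ K)) := by
  constructor
  · intro x hx
    obtain ⟨x, rfl⟩ := mq_surj τ x
    rw [← map_mul, ← map_zero (mq τ), mq_eq_coeff] at hx
    rw [← map_zero (mq τ), mq_eq_coeff]
    intro n hn
    have := hx n hn
    rw [a, ← map_pow, coeff_C_mul, coeff_zero] at this
    rw [al_reg K _ this, coeff_zero]
  · intro x y h
    obtain ⟨x, rfl⟩ := mq_surj τ x
    obtain ⟨y, rfl⟩ := mq_surj τ y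
    rw [← map_mul, ← map_mul, mq_eq_coeff] at h
    have : ∀ n, ∃ z, n < τ → x.coeff n = al ^ K * z := by
      intro n
      by_cases hn : n < τ
      · have := h n hn
        rw [a, b, ← map_pow, ← map_pow, coeff_C_mul, coeff_C_mul] at this
        obtain ⟨z, hz⟩ := be_reg K K _ _ this
        exact ⟨z, fun _ => hz⟩
      · exact ⟨0, fun h => absurd h hn⟩
    choose z hz using this
    refine ⟨mq τ (∑ n ∈ Finset.range τ, monomial n (z n)), ?_⟩
    rw [← map_mul, mq_eq_coeff]
    intro n hn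
    rw [a, ← map_pow, coeff_C_mul, finsetSum_coeff, Finset.sum_eq_single n]
    · rw [coeff_monomial, if_pos rfl, hz n hn]
    · intro m _ hm; rw [coeff_monomial, if_neg hm]
    · intro h'; exact absurd (Finset.mem_range.mpr hn) h'

end Pool.Agent.MP_961ca8_al.H3
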