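import Pool.Agent.MP_961ca8_al.H3.Defs
import Pool.Agent.MP_961ca8_al.H3.Grade

open Polynomial

namespace Pool.Agent.MP_961ca8_al.H3

/-- strong F-regularity in characteristic two, with additive maps -/
def Good (A : Type) [CommRing A] : Prop :=
  ∀ c : A, c ≠ 0 → ∃ e₀ : ℕ, ∀ e ≥ e₀, ∃ φ : A →+ A,
    (∀ x y, φ (x ^ 2 ^ e * y) = x * φ y) ∧ φ c = 1

/-- uniform test exponents -/
def Unif (A : Type) [CommRing A] : Prop :=
  ∀ c : A, c ≠ 0 → ∃ e₀ : ℕ, ∀ e ≥ e₀, ∀ (J : Ideal A) (x : A),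
    c * x ^ 2 ^ e ∈ frobPow (2 ^ e) J → x ∈ J

lemma good_F2 : Good F2 := by
  intro c hc
  refine ⟨0, fun e _ => ⟨AddMonoidHom.id _, fun x y => ?_, ?_⟩⟩
  · have : x ^ 2 ^ e = x := ZMod.pow_card_pow x
    rw [this]; rfl
  · revert c; decide

variable {A : Type} [CommRing A]

lemma Good.poly (h2 : (2 : A) = 0) (hA : Good A) : Good A[X] := by
  intro c hc
  obtain ⟨e₀, he⟩ := hA _ (leadingCoeff_ne_zero.mpr hc)
  refine ⟨max e₀ (c.natDegree + 1), fun e hle => ?_⟩
  obtain ⟨φ, hφ, h1⟩ := he e (le_trans (le_max_left _ _) hle)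
  have hk : c.natDegree < 2 ^ e :=
    lt_of_lt_of_le (lt_of_lt_of_le (Nat.lt_succ_self _) (le_trans (le_max_right _ _) hle))
      (Nat.lt_two_pow_self).le
  refine ⟨sel hk φ, fun x y => ?_, ?_⟩
  · induction x using Polynomial.induction_on' with
    | add p q hp hq =>
      rw [add_pow_two_pow (two_poly h2), add_mul, map_add, hp, hq, add_mul]
    | monomial n a =>
      ext m
      rw [coeff_sel, ← C_mul_X_pow_eq_monomial, mul_pow, ← pow_mul, ← map_pow, mul_assoc,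
        mul_assoc, coeff_C_mul, coeff_C_mul, hφ, coeff_X_pow_mul', coeff_X_pow_mul']
      by_cases h : n ≤ m
      · obtain ⟨m', rfl⟩ := Nat.exists_eq_add_of_le h
        rw [if_pos h, if_pos (by nlinarith [Nat.zero_le (2 ^ e * m')]), coeff_sel]
        congr 3
        rw [Nat.add_sub_cancel_left, mul_add, mul_comm n, add_assoc, Nat.add_sub_cancel_left]
      · rw [if_neg h, if_neg, map_zero]
        have : m + 1 ≤ n := by omega
        have := Nat.mul_le_mul_right (2 ^ e) this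
        nlinarith
  · ext m
    rw [coeff_sel, coeff_one]
    split_ifs with h
    · subst h; simpa using h1
    · rw [coeff_eq_zero_of_natDegree_lt, map_zero]
      have : 0 < 2 ^ e * m := Nat.mul_pos (by positivity) (Nat.pos_of_ne_zero h)
      omega

lemma Good.unif (hA : Good A) : Unif A := by
  intro c hc
  obtain ⟨e₀, he⟩ := hA c hc
  refine ⟨e₀, fun e hle J x hx => ?_⟩
  obtain ⟨φ, hφ, h1⟩ := he e hle
  have key : ∀ z ∈ frobPow (2 ^ e) J, ∀ y, φ (z * y) ∈ J := by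
    intro z hz
    induction hz using Submodule.span_induction with
    | mem z hz =>
      obtain ⟨j, hj, rfl⟩ := hz
      intro y
      rw [hφ]; exact J.mul_mem_right _ hj
    | zero => intro y; rw [zero_mul, map_zero]; exact J.zero_mem
    | add u v _ _ hu hv => intro y; rw [add_mul, map_add]; exact J.add_mem (hu y) (hv y)
    | smul t u _ hu => intro y; rw [smul_eq_mul, mul_comm t, mul_assoc]; exact hu _
  have := key _ hx 1
  rwa [mul_one, mul_comm, hφ, h1, mul_one] at this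

lemma frobPow_map_le (W : Submonoid A) (A' : Type) [CommRing A'] [Algebra A A']
    [IsLocalization W A'] (q : ℕ) (J : Ideal A) :
    frobPow q (J.map (algebraMap A A')) ≤ (frobPow q J).map (algebraMap A A') := by
  rw [frobPow, Ideal.span_le]
  rintro _ ⟨y, hy, rfl⟩
  obtain ⟨⟨⟨j, hj⟩, w⟩, h⟩ := (IsLocalization.mem_map_algebraMap_iff W A').mp hy
  refine (IsLocalization.mem_map_algebraMap_iff W A').mpr
    ⟨⟨⟨j ^ q, Ideal.subset_span ⟨j, hj, rfl⟩⟩, w ^ q⟩, ?_⟩
  simp only [SubmonoidClass.coe_pow, map_pow] at h ⊢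
  rw [← mul_pow, h]

lemma map_frobPow_le {A' : Type} [CommRing A'] (φ : A →+* A') (q : ℕ) (J : Ideal A) :
    (frobPow q J).map φ ≤ frobPow q (J.map φ) := by
  rw [Ideal.map_le_iff_le_comap, frobPow, Ideal.span_le]
  rintro _ ⟨y, hy, rfl⟩
  change φ (y ^ q) ∈ frobPow q (J.map φ)
  rw [map_pow]
  exact Ideal.subset_span ⟨φ y, Ideal.mem_map_of_mem _ hy, rfl⟩

lemma Unif.loc (hA : Unif A) (W : Submonoid A) (A' : Type) [CommRing A'] [Algebra A A']
    [IsLocalization W A'] : Unif A' := by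
  intro c hc
  obtain ⟨⟨c₀, w₀⟩, rfl⟩ := IsLocalization.mk'_surjective W c
  have hc₀ : c₀ ≠ 0 := by
    rintro rfl; exact hc (IsLocalization.mk'_zero _)
  obtain ⟨e₀, he⟩ := hA c₀ hc₀
  refine ⟨e₀, fun e hle J x hx => ?_⟩
  obtain ⟨⟨x₀, w₁⟩, rfl⟩ := IsLocalization.mk'_surjective W x
  simp only at hx ⊢
  rw [← IsLocalization.map_under W A' J] at hx ⊢
  have h1 := frobPow_map_le W A' _ _ hx
  rw [← IsLocalization.mk'_pow, ← IsLocalization.mk'_mul,
    IsLocalization.mk'_mem_map_algebraMap_iff] at h1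
  obtain ⟨w, hw, h1⟩ := h1
  rw [IsLocalization.mk'_mem_map_algebraMap_iff]
  refine ⟨w, hw, he e hle _ _ ?_⟩
  have h2 : c₀ * (w * x₀) ^ 2 ^ e = w ^ (2 ^ e - 1) * (w * (c₀ * x₀ ^ 2 ^ e)) := by
    rw [mul_pow, ← mul_assoc (w ^ _), ← pow_succ, Nat.sub_add_cancel Nat.one_le_two_pow]
    ring
  rw [h2]
  exact Ideal.mul_mem_left _ _ h1

lemma Unif.weak (hA : Unif A) : WeaklyFRegular 2 A := by
  intro I
  ext x
  constructor
  · rintro ⟨c, hc, e₁, h⟩
    by_cases hI : I = ⊤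
    · rw [hI]; trivial
    have hb : (⊥ : Ideal A) ≠ ⊤ := fun hb => hI (top_le_iff.mp (hb ▸ bot_le))
    obtain ⟨P, hP⟩ := Ideal.nonempty_minimalPrimes hb
    have hc0 : c ≠ 0 := by rintro rfl; exact hc P hP P.zero_mem
    obtain ⟨e₀, he⟩ := hA c hc0
    exact he (max e₀ e₁) (le_max_left _ _) I x (h _ (le_max_right _ _))
  · intro hx
    refine ⟨1, fun P hP h1 => hP.1.1.ne_top ((Ideal.eq_top_iff_one _).mpr h1), 0, fun e _ => ?_⟩
    rw [one_mul]
    exact Ideal.subset_span ⟨x, hx, rfl⟩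

lemma Unif.freg (hA : Unif A) : FRegular 2 A := fun W => (hA.loc W (Localization W)).weak

lemma frobPow_span (h2 : (2 : A) = 0) (e : ℕ) (G : Set A) :
    frobPow (2 ^ e) (Ideal.span G) ≤ Ideal.span ((fun x => x ^ 2 ^ e) '' G) := by
  rw [frobPow, Ideal.span_le]
  rintro _ ⟨y, hy, rfl⟩
  have := Ideal.mem_map_of_mem (frob h2 e) hy
  rw [Ideal.map_span] at this
  exact this

lemma frobPow_mono (q : ℕ) {I J : Ideal A} (h : I ≤ J) : frobPow q I ≤ frobPow q J :=
  Ideal.span_mono (Set.image_mono h)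

end Pool.Agent.MP_961ca8_al.H3
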