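import Pool.Agent.MP_961ca8_al.H3.Grade

open Polynomial

namespace Pool.Agent.MP_961ca8_al.H3

/-- the family of three quadrics -/
noncomputable def f : Fin 3 → T :=
  ![a ^ 2 - b * c + X * a ^ 2, b ^ 2 - c * a + X * b ^ 2, c ^ 2 - a * b + X * c ^ 2]

/-- Frobenius powers of the quadrics -/
noncomputable def fq (e : ℕ) : Fin 3 → T := fun j => f j ^ 2 ^ e

lemma hc3 : (c : T) ^ 3 = a ^ 3 + b ^ 3 := by
  simp only [a, b, c, ← map_pow, ← map_add, ga3]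

lemma ht_a : HT wZ 1 a := (hm_al wZ).toT
lemma ht_b : HT wZ 1 b := (hm_be wZ).toT
lemma ht_c : HT wZ 1 c := (hm_ga wZ).toT
lemma ht_X {Γ : Type} [AddCommGroup Γ] (w : Wt Γ) : HT w 0 X := by simpa using ht_X_pow w 1

lemma ht_f : ∀ j, HT wZ 2 (f j) := by
  refine all3 ?_ ?_ ?_
  · exact (((ht_a.pow 2).cast (by norm_num)).sub ((ht_b.mul ht_c).cast (by norm_num))).add
      (((ht_X wZ).mul (ht_a.pow 2)).cast (by norm_num))
  · exact (((ht_b.pow 2).cast (by norm_num)).sub ((ht_c.mul ht_a).cast (by norm_num))).add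
      (((ht_X wZ).mul (ht_b.pow 2)).cast (by norm_num))
  · exact (((ht_c.pow 2).cast (by norm_num)).sub ((ht_a.mul ht_b).cast (by norm_num))).add
      (((ht_X wZ).mul (ht_c.pow 2)).cast (by norm_num))

lemma ht_fq (e : ℕ) (j : Fin 3) : HT wZ (2 * 2 ^ e) (fq e j) :=
  ((ht_f j).pow (2 ^ e)).cast (by simp; ring)

lemma a3 : a ^ 3 = dot ![0, b, c] f + X * (b ^ 3 + c ^ 3) := by
  simp only [dot, f, Matrix.cons_val_zero, Matrix.cons_val_one, Matrix.cons_val]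
  linear_combination (-1 : T) * hc3
    + (a * b * c - b ^ 3 - X * (b ^ 3 + c ^ 3)) * two_T

lemma b3 : b ^ 3 = dot ![a, 0, c] f + X * (a ^ 3 + c ^ 3) := by
  simp only [dot, f, Matrix.cons_val_zero, Matrix.cons_val_one, Matrix.cons_val]
  linear_combination (-1 : T) * hc3
    + (a * b * c - a ^ 3 - X * (a ^ 3 + c ^ 3)) * two_T

lemma c3 : c ^ 3 = dot ![a, b, 0] f + X * (a ^ 3 + b ^ 3) := by
  simp only [dot, f, Matrix.cons_val_zero, Matrix.cons_val_one, Matrix.cons_val]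
  linear_combination hc3
    + (a * b * c - X * (a ^ 3 + b ^ 3)) * two_T

lemma pow_mem (x y : T) (A : Fin 3 → T) (h : x = dot A f + X * y) (e τ : ℕ) :
    ∃ A' y', x ^ (2 ^ e * τ) = dot A' (fq e) + X ^ τ * y' := by
  have h1 : x ^ 2 ^ e = dot (fun j => A j ^ 2 ^ e) (fq e) + X * (X ^ (2 ^ e - 1) * y ^ 2 ^ e) := by
    have := congrArg (frob two_T e) h
    rw [map_add, map_dot, map_mul] at this
    simp only [frob_apply] at this
    rw [this, ← mul_assoc, ← pow_succ', Nat.sub_add_cancel Nat.one_le_two_pow]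
    rfl
  induction τ with
  | zero => exact ⟨0, 1, by simp [dot]⟩
  | succ τ ih =>
    obtain ⟨A', y', ih⟩ := ih
    refine ⟨fun j => A' j * x ^ 2 ^ e + X ^ τ * y' * A j ^ 2 ^ e,
      y' * (X ^ (2 ^ e - 1) * y ^ 2 ^ e), ?_⟩
    rw [Nat.mul_succ, pow_add, ih]
    simp only [dot] at h1 ⊢
    linear_combination (X ^ τ * y') * h1

lemma homog {Γ : Type} [AddCommGroup Γ] {w : Wt Γ} {d : Γ} {δ : Fin 3 → Γ} {x y : T}
    {A F : Fin 3 → T} {τ : ℕ} (hx : HT w d x) (hF : ∀ j, HT w (δ j) (F j))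
    (h : x = dot A F + X ^ τ * y) :
    x = dot (fun j => prT w (d - δ j) (A j)) F + X ^ τ * prT w d y := by
  have := congrArg (prT w d) h
  rw [hx.pr_self, map_add, prT_X_pow_mul] at this
  simp only [dot, map_add, (hF _).pr_mul] at this
  exact this

lemma pow_mem' (e τ : ℕ) : ∃ A B : Fin 3 → T, ∃ y z : T,
    (∀ j, HT wZ ((3 * (2 ^ e * τ) : ℕ) - 2 * 2 ^ e) (A j)) ∧
    (∀ j, HT wZ ((3 * (2 ^ e * τ) : ℕ) - 2 * 2 ^ e) (B j)) ∧
    a ^ (3 * (2 ^ e * τ)) = dot A (fq e) + X ^ τ * y ∧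
    b ^ (3 * (2 ^ e * τ)) = dot B (fq e) + X ^ τ * z := by
  obtain ⟨A, y, hA⟩ := pow_mem _ _ _ a3 e τ
  obtain ⟨B, z, hB⟩ := pow_mem _ _ _ b3 e τ
  rw [← pow_mul] at hA hB
  have ha : HT wZ ((3 * (2 ^ e * τ) : ℕ) : ℤ) (a ^ (3 * (2 ^ e * τ))) :=
    (ht_a.pow _).cast (by simp)
  have hb : HT wZ ((3 * (2 ^ e * τ) : ℕ) : ℤ) (b ^ (3 * (2 ^ e * τ))) :=
    (ht_b.pow _).cast (by simp)
  exact ⟨_, _, _, _, fun j => ht_prT _ _ _, fun j => ht_prT _ _ _,
    homog ha (ht_fq e) hA, homog hb (ht_fq e) hB⟩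

lemma fq_succ (e : ℕ) (j : Fin 3) : fq (e + 1) j = fq e j ^ 2 := by
  simp only [fq]; rw [pow_succ, pow_mul]

lemma sq_dot (x y : Fin 3 → T) : dot x y ^ 2 = dot (fun j => x j ^ 2) (fun j => y j ^ 2) := by
  simp only [dot]
  linear_combination (x 0 * y 0 * (x 1 * y 1) + x 0 * y 0 * (x 2 * y 2)
    + x 1 * y 1 * (x 2 * y 2)) * two_T

lemma sq_crs (x y : Fin 3 → T) (j : Fin 3) :
    crs x y j ^ 2 = crs (fun j => x j ^ 2) (fun j => y j ^ 2) j := by
  have := map_crs (frob two_T 1) x y j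
  simpa only [frob_apply, pow_one] using this

lemma sq_eq {x y z : T} {τ : ℕ} (h : x = y + X ^ τ * z) :
    x ^ 2 = y ^ 2 + X ^ (2 * τ) * z ^ 2 := by
  rw [h]; linear_combination (y * X ^ τ * z) * two_T

lemma mq_X (τ : ℕ) (z : T) : mq τ (X ^ τ * z) = 0 := by
  rw [← map_zero (mq τ), mq_eq]; exact ⟨z, by ring⟩

/-- the key step: squares of elements of the critical degree lie in the next Frobenius power -/
lemma key (e τ : ℕ) (hτ : 1 ≤ τ) (g h k : Fin 3 → T)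
    (hg : ∀ j, HT wZ (2 ^ e) (g j)) (hh : ∀ j, HT wZ (2 ^ e) (h j))
    (hf : ∀ j, fq e j = crs g h j + X ^ τ * k j) (r : T) (hr : HT wZ (3 * 2 ^ e) r) :
    ∃ W : Fin 3 → T, ∃ z, r ^ 2 = dot W (fq (e + 1)) + X ^ (2 * τ) * z := by
  obtain ⟨A, B, y, z, hA, hB, ha, hb⟩ := pow_mem' e τ
  set K := 3 * (2 ^ e * τ) with hK
  have hK1 : 1 ≤ K := by
    have : 1 ≤ 2 ^ e := Nat.one_le_two_pow
    have := Nat.mul_le_mul this hτ
    omega
  have hF : (fun j => mq τ (fq e j)) = crs (fun j => mq τ (g j)) (fun j => mq τ (h j)) := by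
    funext j; rw [hf, map_add, mq_X, add_zero, map_crs]
  have ha' : mq τ (a ^ K) = dot (fun j => mq τ (A j))
      (crs (fun j => mq τ (g j)) (fun j => mq τ (h j))) := by
    rw [ha, map_add, mq_X, add_zero, map_dot, hF]
  have hb' : mq τ (b ^ K) = dot (fun j => mq τ (B j))
      (crs (fun j => mq τ (g j)) (fun j => mq τ (h j))) := by
    rw [hb, map_add, mq_X, add_zero, map_dot, hF]
  obtain ⟨l, m, hlm⟩ := syz (regPairT τ K) _ _ _ _
    (fun j => mq τ (b ^ K * A j - a ^ K * B j)) ha' hb' (by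
      simp only [dot, map_sub, map_mul] at ha' hb' ⊢
      linear_combination mq τ (a ^ K) * hb' - mq τ (b ^ K) * ha')
  obtain ⟨l, rfl⟩ := mq_surj τ l
  obtain ⟨m, rfl⟩ := mq_surj τ m
  have h1 : ∀ j, ∃ z, b ^ K * A j - a ^ K * B j
      = prT wZ (2 * K - 3 * 2 ^ e) l * g j + prT wZ (2 * K - 3 * 2 ^ e) m * h j + X ^ τ * z := by
    intro j
    have := hlm j
    simp only [← map_mul, ← map_add] at this
    obtain ⟨z, hz⟩ := mq_eq.mp this
    have hw : HT wZ (2 * K - 2 * 2 ^ e) (b ^ K * A j - a ^ K * B j) :=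
      (((ht_b.pow K).mul (hA j)).cast (by simp; ring)).sub
        (((ht_a.pow K).mul (hB j)).cast (by simp; ring))
    have h2 := congrArg (prT wZ (2 * K - 2 * 2 ^ e)) hz
    rw [hw.pr_self, map_add, map_add, prT_X_pow_mul, (hg j).pr_mul, (hh j).pr_mul] at h2
    have e1 : (2 * K - 2 * 2 ^ e - 2 ^ e : ℤ) = 2 * K - 3 * 2 ^ e := by ring
    rw [e1] at h2
    exact ⟨_, h2⟩
  choose z1 hz1 using h1
  set l' := prT wZ (2 * K - 3 * 2 ^ e) l
  set m' := prT wZ (2 * K - 3 * 2 ^ e) m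
  obtain ⟨u1, v1, e1⟩ := sq_mem K hK1 (r * l')
    ((hr.mul (ht_prT _ _ _)).cast (by push_cast; ring))
  obtain ⟨u2, v2, e2⟩ := sq_mem K hK1 (r * m')
    ((hr.mul (ht_prT _ _ _)).cast (by push_cast; ring))
  have h3 : ∀ j, ∃ W, mq (2 * τ) (r ^ 2 * A j ^ 2 - v1 * g j ^ 2 - v2 * h j ^ 2)
      = mq (2 * τ) (a ^ (2 * K)) * W := by
    intro j
    refine (regPairT (2 * τ) (2 * K)).r2 _
      (mq (2 * τ) (u1 * g j ^ 2 + u2 * h j ^ 2 - r ^ 2 * B j ^ 2)) ?_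
    rw [← map_mul, ← map_mul, mq_eq]
    refine ⟨r ^ 2 * z1 j ^ 2, ?_⟩
    have h4 := sq_eq (hz1 j)
    linear_combination r ^ 2 * h4 + g j ^ 2 * e1 + h j ^ 2 * e2
      + (r ^ 2 * (b ^ K * A j * (a ^ K * B j)) + r ^ 2 * (l' * g j * (m' * h j))) * two_T
  choose W hW using h3
  have hF2 : ∀ j, mq (2 * τ) (fq (e + 1) j)
      = crs (fun j => mq (2 * τ) (g j ^ 2)) (fun j => mq (2 * τ) (h j ^ 2)) j := by
    intro j
    rw [fq_succ, sq_eq (hf j), map_add, mq_X, add_zero, sq_crs, map_crs]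
  have ha2 : mq (2 * τ) (a ^ (2 * K))
      = dot (fun j => mq (2 * τ) (A j ^ 2)) (fun j => mq (2 * τ) (fq (e + 1) j)) := by
    have := sq_eq ha
    rw [← pow_mul, mul_comm K 2, sq_dot] at this
    rw [this, map_add, mq_X, add_zero, map_dot]
    simp only [fq_succ]
  have h5 : mq (2 * τ) (r ^ 2) = dot W (fun j => mq (2 * τ) (fq (e + 1) j)) := by
    have := (regPairT (2 * τ) (2 * K)).r1
      (mq (2 * τ) (r ^ 2) - dot W (fun j => mq (2 * τ) (fq (e + 1) j))) (by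
        have w0 := hW 0; have w1 := hW 1; have w2 := hW 2
        simp only [dot, hF2, crs0, crs1, crs2, map_sub, map_mul] at ha2 w0 w1 w2 ⊢
        set G0 := mq (2 * τ) (g 0 ^ 2)
        set G1 := mq (2 * τ) (g 1 ^ 2)
        set G2 := mq (2 * τ) (g 2 ^ 2)
        set H0 := mq (2 * τ) (h 0 ^ 2)
        set H1 := mq (2 * τ) (h 1 ^ 2)
        set H2 := mq (2 * τ) (h 2 ^ 2)
        linear_combination mq (2 * τ) (r ^ 2) * ha2 + (G1 * H2 - G2 * H1) * w0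
          + (G2 * H0 - G0 * H2) * w1 + (G0 * H1 - G1 * H0) * w2)
    exact sub_eq_zero.mp this
  choose W' hW' using fun j => mq_surj (2 * τ) (W j)
  refine ⟨W', mq_eq.mp ?_⟩
  rw [h5, map_dot]
  simp only [hW']

/-- the state of the induction -/
def St (e τ : ℕ) : Prop := ∃ g h k : Fin 3 → T,
  (∀ j, HT wZ (2 ^ e) (g j)) ∧ (∀ j, HT wZ (2 ^ e) (h j)) ∧ (∀ j, HT wZ (2 * 2 ^ e) (k j)) ∧
  (∀ j, fq e j = crs g h j + X ^ τ * k j) ∧ ∀ j, (g j).coeff 0 = ![ga, al, be] j ^ 2 ^ e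

lemma st_zero : St 0 1 := by
  refine ⟨![c, a, b], ![b, c, a], ![a ^ 2, b ^ 2, c ^ 2], ?_, ?_, ?_, ?_, ?_⟩
  · exact all3 ht_c ht_a ht_b
  · exact all3 ht_b ht_c ht_a
  · exact all3 ((ht_a.pow 2).cast (by norm_num)) ((ht_b.pow 2).cast (by norm_num))
      ((ht_c.pow 2).cast (by norm_num))
  · refine all3 ?_ ?_ ?_ <;> simp [fq, f] <;> ring
  · refine all3 ?_ ?_ ?_ <;> simp [a, b, c]

lemma ht_dot {d e : ℤ} {x y : Fin 3 → T} (hx : ∀ j, HT wZ d (x j)) (hy : ∀ j, HT wZ e (y j)) :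
    HT wZ (d + e) (dot x y) :=
  (((hx 0).mul (hy 0)).add ((hx 1).mul (hy 1))).add ((hx 2).mul (hy 2))

lemma ht_crs {d e : ℤ} {x y : Fin 3 → T} (hx : ∀ j, HT wZ d (x j)) (hy : ∀ j, HT wZ e (y j)) :
    ∀ j, HT wZ (d + e) (crs x y j) :=
  all3 (((hx 1).mul (hy 2)).sub ((hx 2).mul (hy 1))) (((hx 2).mul (hy 0)).sub ((hx 0).mul (hy 2)))
    (((hx 0).mul (hy 1)).sub ((hx 1).mul (hy 0)))

lemma pr_crs_left {d e : ℤ} (x : Fin 3 → T) {y : Fin 3 → T} (hy : ∀ j, HT wZ e (y j)) :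
    ∀ j, prT wZ d (crs x y j) = crs (fun j => prT wZ (d - e) (x j)) y j := by
  refine all3 ?_ ?_ ?_ <;> simp only [crs0, crs1, crs2, map_sub, (hy _).pr_mul]

lemma pr_crs_right {d e : ℤ} {x : Fin 3 → T} (y : Fin 3 → T) (hx : ∀ j, HT wZ e (x j)) :
    ∀ j, prT wZ d (crs x y j) = crs x (fun j => prT wZ (d - e) (y j)) j := by
  refine all3 ?_ ?_ ?_ <;>
    simp only [crs0, crs1, crs2, map_sub, mul_comm (x _), (hx _).pr_mul]

lemma st_succ (e τ : ℕ) (hτ : 1 ≤ τ) (H : St e τ) : St (e + 1) (4 * τ) := by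
  obtain ⟨g, h, k, hg, hh, hk, hf, hg0⟩ := H
  obtain ⟨W1, z1, e1⟩ := key e τ hτ g h k hg hh hf (dot k g)
    ((ht_dot hk hg).cast (by ring))
  obtain ⟨W2, z2, e2⟩ := key e τ hτ g h k hg hh hf (dot k h)
    ((ht_dot hk hh).cast (by ring))
  rw [sq_dot] at e1 e2
  set G : Fin 3 → T := fun j => g j ^ 2 with hG
  set H : Fin 3 → T := fun j => h j ^ 2 with hH
  set k2 : Fin 3 → T := fun j => k j ^ 2 with hk2
  have hG' : ∀ j, HT wZ (2 ^ (e + 1)) (G j) := fun j => ((hg j).pow 2).cast (by simp; ring)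
  have hH' : ∀ j, HT wZ (2 ^ (e + 1)) (H j) := fun j => ((hh j).pow 2).cast (by simp; ring)
  have hk' : ∀ j, HT wZ (2 * 2 ^ (e + 1)) (k2 j) := fun j => ((hk j).pow 2).cast (by simp; ring)
  have hf2 : ∀ j, fq (e + 1) j = crs G H j + X ^ (2 * τ) * k2 j := by
    intro j; rw [fq_succ, sq_eq (hf j), sq_crs]
  have hF : (fun j => mq (2 * τ) (fq (e + 1) j))
      = crs (fun j => mq (2 * τ) (G j)) (fun j => mq (2 * τ) (H j)) := by
    funext j; rw [hf2, map_add, mq_X, add_zero, map_crs]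
  obtain ⟨A, B, y, z, -, -, ha, hb⟩ := pow_mem' (e + 1) (2 * τ)
  set K := 3 * (2 ^ (e + 1) * (2 * τ))
  have ha' : mq (2 * τ) (a ^ K) = dot (fun j => mq (2 * τ) (A j))
      (crs (fun j => mq (2 * τ) (G j)) (fun j => mq (2 * τ) (H j))) := by
    rw [ha, map_add, mq_X, add_zero, map_dot, hF]
  have hb' : mq (2 * τ) (b ^ K) = dot (fun j => mq (2 * τ) (B j))
      (crs (fun j => mq (2 * τ) (G j)) (fun j => mq (2 * τ) (H j))) := by
    rw [hb, map_add, mq_X, add_zero, map_dot, hF]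
  have e1' := congrArg (mq (2 * τ)) e1
  have e2' := congrArg (mq (2 * τ)) e2
  rw [map_add, mq_X, add_zero, map_dot, map_dot, hF] at e1' e2'
  obtain ⟨l, hl⟩ := par (regPairT (2 * τ) K) _ _ _ _
    (fun j => mq (2 * τ) (k2 j + crs W1 H j + crs G W2 j)) ha' hb'
    (by
      simp only [dot, crs0, crs1, crs2, map_add, map_sub, map_mul] at e1' ⊢
      linear_combination e1')
    (by
      simp only [dot, crs0, crs1, crs2, map_add, map_sub, map_mul] at e2' ⊢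
      linear_combination e2')
  obtain ⟨l, rfl⟩ := mq_surj _ l
  have h1 : ∀ j, ∃ z, k2 j = crs (fun j => l * G j - W1 j) H j + crs G (fun j => - W2 j) j
      + X ^ (2 * τ) * z := by
    intro j
    have := hl j
    rw [← map_crs, ← map_mul] at this
    obtain ⟨z, hz⟩ := mq_eq.mp this
    refine ⟨z, ?_⟩
    revert j
    refine all3 ?_ ?_ ?_ <;> intro _ hz <;> simp only [crs0, crs1, crs2] at hz ⊢ <;>
      linear_combination hz
  choose z3 hz3 using h1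
  set A' : Fin 3 → T := fun j => prT wZ (2 ^ (e + 1)) (l * G j - W1 j)
  set B' : Fin 3 → T := fun j => prT wZ (2 ^ (e + 1)) (- W2 j)
  have hA' : ∀ j, HT wZ (2 ^ (e + 1)) (A' j) := fun j => ht_prT _ _ _
  have hB' : ∀ j, HT wZ (2 ^ (e + 1)) (B' j) := fun j => ht_prT _ _ _
  have h2 : ∀ j, k2 j = crs A' H j + crs G B' j
      + X ^ (2 * τ) * prT wZ (2 * 2 ^ (e + 1)) (z3 j) := by
    intro j
    have := congrArg (prT wZ (2 * 2 ^ (e + 1))) (hz3 j)
    rw [(hk' j).pr_self, map_add, map_add, prT_X_pow_mul, pr_crs_left _ hH',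
      pr_crs_right _ hG'] at this
    have e3 : (2 * 2 ^ (e + 1) - 2 ^ (e + 1) : ℤ) = 2 ^ (e + 1) := by ring
    rw [e3] at this
    exact this
  refine ⟨fun j => G j + X ^ (2 * τ) * A' j, fun j => H j + X ^ (2 * τ) * B' j,
    fun j => prT wZ (2 * 2 ^ (e + 1)) (z3 j) - crs A' B' j, ?_, ?_, ?_, ?_, ?_⟩
  · exact fun j => (hG' j).add (((ht_X_pow wZ _).mul (hA' j)).cast (by ring))
  · exact fun j => (hH' j).add (((ht_X_pow wZ _).mul (hB' j)).cast (by ring))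
  · exact fun j => (ht_prT _ _ _).sub ((ht_crs hA' hB' j).cast (by ring))
  · intro j
    have e4 := hf2 j
    have e5 := h2 j
    revert j
    refine all3 ?_ ?_ ?_ <;> intro e4 e5 <;> simp only [crs0, crs1, crs2] at e4 e5 ⊢ <;>
      linear_combination e4 + X ^ (2 * τ) * e5
  · intro j
    have : 2 * τ = (2 * τ - 1) + 1 := by omega
    rw [coeff_add, this, pow_succ' X, mul_assoc, mul_coeff_zero, coeff_X_zero, zero_mul, add_zero,
      hG]
    simp only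
    rw [sq, mul_coeff_zero, hg0, pow_succ, pow_mul, sq]

lemma st_all (e : ℕ) : St e (4 ^ e) := by
  induction e with
  | zero => exact st_zero
  | succ e ih =>
    rw [pow_succ' 4]
    exact st_succ e _ (Nat.one_le_pow _ _ (by norm_num)) ih

end Pool.Agent.MP_961ca8_al.H3
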