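import Pool.Agent.MP_961ca8_al.H3.Key

open Polynomial

namespace Pool.Agent.MP_961ca8_al.H3

/-- the finer grading by degree and a character of order three -/
def wG : Wt (ℤ × ZMod 3) := ⟨(1, 1), (1, 2), (1, 0), by decide, by decide⟩

/-- degrees of the quadrics -/
def ph : Fin 3 → ℤ × ZMod 3 := ![(2, 2), (2, 1), (2, 0)]

/-- degree of the first syzygy -/
def rho : ℤ × ZMod 3 := (3, 2)

lemma pr_zero (χ : ZMod 3) (hχ : χ ≠ 0) (x : R0) : pr wG (0, χ) x = 0 := by
  refine pr_ind wG _ (fun y => y = 0) rfl (fun x y hx hy => by rw [hx, hy, add_zero]) ?_ x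
  intro i j k h
  have h1 := congrArg Prod.fst h
  rw [Prod.fst_add, Prod.fst_add, Prod.smul_fst, Prod.smul_fst, Prod.smul_fst] at h1
  simp only [wG, nsmul_eq_mul, mul_one] at h1
  have hi : i = 0 := by omega
  have hj : j = 0 := by omega
  have hk : k = 0 := by omega
  subst hi hj hk
  have h2 := congrArg Prod.snd h
  simp at h2
  exact absurd h2.symm hχ

lemma ev_pr (x : R0) : ev (pr wG 0 x) = ev x := by
  have hx := mon_closure x
  induction hx using AddSubmonoid.closure_induction with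
  | mem y hy =>
    obtain ⟨i, j, k, rfl⟩ := hy
    by_cases h : i • wG.a + j • wG.b + k • wG.c = 0
    · rw [((hm_mon wG i j k).cast h).pr_self]
    · rw [(hm_mon wG i j k).pr_ne h, map_zero]
      simp only [mon, map_mul, map_pow, ev_al, ev_be, ev_ga]
      by_cases hi : i = 0
      · by_cases hj : j = 0
        · by_cases hk : k = 0
          · subst hi hj hk; simp at h
          · rw [zero_pow hk, mul_zero]
        · rw [zero_pow hj, mul_zero, zero_mul]
      · rw [zero_pow hi, zero_mul, zero_mul]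
  | zero => rw [map_zero]
  | add x y _ _ hx hy => rw [map_add, map_add, map_add, hx, hy]

/-- the member at infinity -/
noncomputable def gI : Fin 3 → R0 := ![al ^ 2, be ^ 2, ga ^ 2]
noncomputable def hI : Fin 3 → R0 := ![be * ga, al * ga, al * be]

lemma crs_I : ∀ j, crs gI hI j = gI j ^ 2 := by
  refine all3 ?_ ?_ ?_ <;>
    simp only [crs0, crs1, crs2, gI, hI, Matrix.cons_val_zero, Matrix.cons_val_one,
      Matrix.cons_val]
  · linear_combination (-al) * ga3 - al ^ 4 * two_R0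
  · linear_combination be * ga3
  · linear_combination (-ga) * ga3 - ga * be ^ 3 * two_R0

lemma hm_gI : ∀ j, Hm wG (ph j) (gI j) :=
  all3 (((hm_al wG).pow 2).cast (by decide)) (((hm_be wG).pow 2).cast (by decide))
    (((hm_ga wG).pow 2).cast (by decide))

lemma hm_hI : ∀ j, Hm wG (ph j) (hI j) :=
  all3 (((hm_be wG).mul (hm_ga wG)).cast (by decide))
    (((hm_al wG).mul (hm_ga wG)).cast (by decide)) (((hm_al wG).mul (hm_be wG)).cast (by decide))

lemma two_pow_ne (e : ℕ) : ((2 ^ e : ℕ) : ZMod 3) ≠ 0 := by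
  rw [Ne, ZMod.natCast_eq_zero_iff]
  intro h
  have := Nat.Prime.dvd_of_dvd_pow Nat.prime_three h
  omega

lemma nosyz0 (e : ℕ) (x : Fin 3 → R0)
    (hx : ∀ j, Hm wG (2 ^ (e + 1) • rho - 2 ^ (e + 1) • ph j) (x j))
    (h : dot x (fun j => gI j ^ 2 ^ (e + 1)) = 0) : ∀ j, x j = 0 := by
  have hc : crs (fun j => gI j ^ 2 ^ e) (fun j => hI j ^ 2 ^ e)
      = fun j => gI j ^ 2 ^ (e + 1) := by
    funext j
    have := map_crs (frob two_R0 e) gI hI j
    simp only [frob_apply] at this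
    rw [← this, crs_I, ← pow_mul, pow_succ']
  obtain ⟨l, m, hlm⟩ := syz (regPair0 (2 * 2 ^ (e + 1)) (2 * 2 ^ (e + 1)))
    (fun j => gI j ^ 2 ^ e) (fun j => hI j ^ 2 ^ e) ![1, 0, 0] ![0, 1, 0] x
    (by rw [hc]; simp [dot, gI, pow_mul]) (by rw [hc]; simp [dot, gI, pow_mul])
    (by rw [hc]; exact h)
  intro j
  have h1 := congrArg (pr wG (2 ^ (e + 1) • rho - 2 ^ (e + 1) • ph j)) (hlm j)
  rw [(hx j).pr_self, map_add, ((hm_gI j).pow _).pr_mul, ((hm_hI j).pow _).pr_mul] at h1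
  have h2 : 2 ^ (e + 1) • rho - 2 ^ (e + 1) • ph j - 2 ^ e • ph j
      = ((0 : ℤ), ((2 ^ e : ℕ) : ZMod 3)) := by
    have h3 : 2 • rho - 2 • ph j - ph j = ((0 : ℤ), (1 : ZMod 3)) :=
      (by decide : ∀ j, 2 • rho - 2 • ph j - ph j = ((0 : ℤ), (1 : ZMod 3))) j
    rw [pow_succ, mul_nsmul', mul_nsmul', ← nsmul_sub, ← nsmul_sub, h3]
    simp
  rw [h2, pr_zero _ (two_pow_ne e), pr_zero _ (two_pow_ne e)] at h1
  simpa using h1

lemma fq_eq (e : ℕ) : ∀ j, ∃ u : R0, fq e j = C u + X ^ 2 ^ e * C (gI j ^ 2 ^ e) := by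
  have h : ∀ j, ∃ u : R0, f j = C u + X * C (gI j) := by
    refine all3 ⟨al ^ 2 - be * ga, ?_⟩ ⟨be ^ 2 - ga * al, ?_⟩ ⟨ga ^ 2 - al * be, ?_⟩ <;>
      simp [f, gI, a, b, c]
  intro j
  obtain ⟨u, hu⟩ := h j
  refine ⟨u ^ 2 ^ e, ?_⟩
  rw [fq, hu, add_pow_two_pow two_T, mul_pow, map_pow, map_pow]

lemma nosyz (e : ℕ) (x : Fin 3 → T)
    (hx : ∀ j, HT wG (2 ^ (e + 1) • rho - 2 ^ (e + 1) • ph j) (x j))
    (h : dot x (fq (e + 1)) = 0) : ∀ j, x j = 0 := by
  choose u hu using fq_eq (e + 1)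
  have step : ∀ n, (∀ j m, n + 1 ≤ m → (x j).coeff m = 0) → ∀ j, (x j).coeff n = 0 := by
    intro n hn
    refine nosyz0 e (fun j => (x j).coeff n) (fun j => hx j n) ?_
    have h1 := congrArg (fun p => coeff p (n + 2 ^ (e + 1))) h
    have h2 : ∀ j, (x j * fq (e + 1) j).coeff (n + 2 ^ (e + 1))
        = (x j).coeff n * gI j ^ 2 ^ (e + 1) := by
      intro j
      rw [hu, mul_add, coeff_add, coeff_mul_C, hn j _ (by
        have : 1 ≤ 2 ^ (e + 1) := Nat.one_le_two_pow
        omega), zero_mul, zero_add, ← mul_assoc, coeff_mul_C, coeff_mul_X_pow]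
    simp only [dot, coeff_add, h2, coeff_zero] at h1
    exact h1
  have all : ∀ n, (∀ j m, n ≤ m → (x j).coeff m = 0) → ∀ j, x j = 0 := by
    intro n
    induction n with
    | zero => intro hn j; ext m; rw [hn j m (Nat.zero_le _), coeff_zero]
    | succ n ih =>
      intro hn
      refine ih fun j m hm => ?_
      rcases Nat.eq_or_lt_of_le hm with rfl | hm
      · exact step _ hn j
      · exact hn j m hm
  refine all ((x 0).natDegree + (x 1).natDegree + (x 2).natDegree + 1) ?_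
  refine all3 ?_ ?_ ?_ <;> intro m hm <;> exact coeff_eq_zero_of_natDegree_lt (by omega)

lemma htG_f : ∀ j, HT wG (ph j) (f j) := by
  have ha : HT wG wG.a a := (hm_al wG).toT
  have hb : HT wG wG.b b := (hm_be wG).toT
  have hc : HT wG wG.c c := (hm_ga wG).toT
  refine all3 ?_ ?_ ?_
  · exact (((ha.pow 2).cast (by decide)).sub ((hb.mul hc).cast (by decide))).add
      (((ht_X wG).mul (ha.pow 2)).cast (by decide))
  · exact (((hb.pow 2).cast (by decide)).sub ((hc.mul ha).cast (by decide))).add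
      (((ht_X wG).mul (hb.pow 2)).cast (by decide))
  · exact (((hc.pow 2).cast (by decide)).sub ((ha.mul hb).cast (by decide))).add
      (((ht_X wG).mul (hc.pow 2)).cast (by decide))

/-- the torsion element of order exactly at least `4 ^ e` -/
theorem mainT (e : ℕ) : ∃ r : T, (∃ W, X ^ 4 ^ (e + 1) * r = dot W (fq (e + 1))) ∧
    ∀ (d : T) (W : Fin 3 → T) (j : ℕ), j < 4 ^ (e + 1) → ev (d.coeff 0) ≠ 0 →
      d * X ^ j * r ≠ dot W (fq (e + 1)) := by
  obtain ⟨g, h, k, -, -, -, hf, hg0⟩ := st_all (e + 1)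
  set τ := 4 ^ (e + 1)
  set q := 2 ^ (e + 1) with hq
  have hF : ∀ j, HT wG (q • ph j) (fq (e + 1) j) := fun j => (htG_f j).pow _
  have h1 : (0 : T) = dot g (fq (e + 1)) + X ^ τ * (- dot g k) := by
    have h0 := hf 0; have h1 := hf 1; have h2 := hf 2
    simp only [dot, crs0, crs1, crs2] at h0 h1 h2 ⊢
    rw [h0, h1, h2]; ring
  have h2 := homog (HT.zero wG (q • rho)) hF h1
  set g' : Fin 3 → T := fun j => prT wG (q • rho - q • ph j) (g j) with hg'
  set r := prT wG (q • rho) (- dot g k)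
  have hr : HT wG (q • rho) r := ht_prT _ _ _
  refine ⟨r, ⟨fun j => - g' j, ?_⟩, ?_⟩
  · simp only [dot] at h2 ⊢; linear_combination (-1 : T) * h2
  · intro d W j hj hd hW
    have h3 := congrArg (prT wG (q • rho)) hW
    rw [mul_assoc, (((ht_X_pow wG j).mul hr).cast (zero_add _)).pr_mul, sub_self] at h3
    simp only [dot, map_add, (hF _).pr_mul] at h3
    obtain ⟨i, hi⟩ := Nat.exists_eq_add_of_lt hj
    have h4 := nosyz e (fun l => prT wG 0 d * g' l
        + X ^ (i + 1) * prT wG (q • rho - q • ph l) (W l))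
      (fun l => (((ht_prT wG 0 d).mul (ht_prT _ _ _)).cast (zero_add _)).add
        (((ht_X_pow wG _).mul (ht_prT _ _ _)).cast (zero_add _))) (by
          rw [hi] at h2
          simp only [dot] at h2 ⊢
          linear_combination (- prT wG 0 d) * h2 - X ^ (i + 1) * h3) 1
    have h5 := congrArg (fun p => coeff p 0) h4
    simp only [coeff_add, mul_coeff_zero, coeff_zero, pow_succ' X, coeff_X_zero, zero_mul,
      add_zero, hg', coeff_prT, hg0] at h5
    have h6 : Hm wG (q • rho - q • ph 1) (al ^ q) :=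
      ((hm_al wG).pow q).cast (by rw [← nsmul_sub]; rfl)
    change pr wG 0 (d.coeff 0) * pr wG (q • rho - q • ph 1) (al ^ q) = 0 at h5
    rw [h6.pr_self, mul_comm] at h5
    apply hd
    rw [← ev_pr, al_reg _ _ h5, map_zero]

end Pool.Agent.MP_961ca8_al.H3
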