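import Pool.Agent.MP_961ca8_al.H3.Vec

open Polynomial

namespace Pool.Agent.MP_961ca8_al.H3

abbrev F2 := ZMod 2
abbrev P0 := Polynomial (Polynomial F2)
abbrev S0 := Polynomial P0

/-- the Fermat cubic -/
noncomputable def F0 : S0 := X ^ 3 + C (C (X ^ 3) + X ^ 3)

abbrev R0 := AdjoinRoot F0

noncomputable def al : R0 := AdjoinRoot.of F0 (C X)
noncomputable def be : R0 := AdjoinRoot.of F0 X
noncomputable def ga : R0 := AdjoinRoot.root F0

lemma F0_monic : F0.Monic := by
  unfold F0
  exact monic_X_pow_add_C _ (by norm_num)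

lemma two_F2 : (2 : F2) = 0 := rfl

lemma two_poly {A : Type*} [CommRing A] (h : (2 : A) = 0) : (2 : A[X]) = 0 := by
  have : (C (2 : A) : A[X]) = 2 := map_ofNat C 2
  rw [← this, h, map_zero]

lemma two_map {A B : Type*} [CommRing A] [CommRing B] (φ : A →+* B) (h : (2 : A) = 0) :
    (2 : B) = 0 := by
  have : φ (2 : A) = 2 := map_ofNat φ 2
  rw [← this, h, map_zero]

lemma two_P0 : (2 : P0) = 0 := two_poly (two_poly two_F2)
lemma two_S0 : (2 : S0) = 0 := two_poly two_P0
lemma two_R0 : (2 : R0) = 0 := two_map (AdjoinRoot.mk F0) two_S0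

lemma eval_F0 {A : Type*} [CommRing A] (i : P0 →+* A) (x : A) :
    F0.eval₂ i x = x ^ 3 + i (C X) ^ 3 + i X ^ 3 := by
  rw [F0, eval₂_add, eval₂_X_pow, eval₂_C, map_add, map_pow C, map_pow i, map_pow i, add_assoc]

lemma fermat : ga ^ 3 + al ^ 3 + be ^ 3 = 0 := by
  have h := AdjoinRoot.eval₂_root F0
  rw [eval_F0] at h
  exact h

lemma ga3 : ga ^ 3 = al ^ 3 + be ^ 3 := by
  linear_combination fermat - (al ^ 3 + be ^ 3) * two_R0

/-- coordinates -/
noncomputable def L : R0 →ₗ[P0] S0 := AdjoinRoot.modByMonicHom F0_monic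

lemma mk_L (x : R0) : AdjoinRoot.mk F0 (L x) = x := AdjoinRoot.mk_leftInverse F0_monic x

lemma L_mul (c : P0) (x : R0) : L (AdjoinRoot.of F0 c * x) = C c * L x := by
  have : AdjoinRoot.of F0 c * x = c • x := by
    induction x using AdjoinRoot.induction_on with
    | ih p => rw [AdjoinRoot.smul_mk, smul_eq_C_mul, map_mul, AdjoinRoot.mk_C]
  rw [this, map_smul, smul_eq_C_mul]

lemma al_reg (K : ℕ) (x : R0) (h : al ^ K * x = 0) : x = 0 := by
  have h1 : L (AdjoinRoot.of F0 (C X ^ K) * x) = 0 := by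
    rw [map_pow]; change L (al ^ K * x) = 0; rw [h, map_zero]
  rw [L_mul] at h1
  have h2 : (C ((C X : P0) ^ K) : S0) ≠ 0 := by
    simp
  rw [← mk_L x, (mul_eq_zero.mp h1).resolve_left h2, map_zero]

lemma be_reg1 (K : ℕ) (x y : R0) (h : be * x = al ^ K * y) : ∃ z, x = al ^ K * z := by
  have h1 : L (AdjoinRoot.of F0 X * x) = L (AdjoinRoot.of F0 (C X ^ K) * y) := by
    rw [map_pow]; exact congrArg L h
  rw [L_mul, L_mul] at h1
  have h2 : (C ((C X : P0) ^ K) : S0) ∣ L x := by
    rw [C_dvd_iff_dvd_coeff]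
    intro i
    have h3 := congrArg (fun p => coeff p i) h1
    simp only [coeff_C_mul] at h3
    rw [← map_pow, C_dvd_iff_dvd_coeff]
    intro n
    have h4 := congrArg (fun p => coeff p (n + 1)) h3
    simp only [coeff_X_mul] at h4
    rw [h4, ← map_pow, coeff_C_mul]
    exact dvd_mul_right _ _
  obtain ⟨Z, hZ⟩ := h2
  refine ⟨AdjoinRoot.mk F0 Z, ?_⟩
  rw [← mk_L x, hZ, map_mul, AdjoinRoot.mk_C, map_pow]
  rfl

lemma be_reg (K n : ℕ) : ∀ x y : R0, be ^ n * x = al ^ K * y → ∃ z, x = al ^ K * z := by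
  induction n with
  | zero => intro x y h; exact ⟨y, by simpa using h⟩
  | succ n ih =>
    intro x y h
    obtain ⟨z, hz⟩ := ih (be * x) y (by rw [← h]; ring)
    exact be_reg1 K x z hz

lemma regPair0 (K n : ℕ) : RegPair (al ^ K) (be ^ n) := ⟨al_reg K, be_reg K n⟩

/-- monomials -/
noncomputable def mon (i j k : ℕ) : R0 := al ^ i * be ^ j * ga ^ k

lemma mon_closure (x : R0) :
    x ∈ AddSubmonoid.closure {y | ∃ i j k, y = mon i j k} := by
  set M := AddSubmonoid.closure {y | ∃ i j k, y = mon i j k}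
  have hm : ∀ i j k, mon i j k ∈ M := fun i j k => AddSubmonoid.subset_closure ⟨i, j, k, rfl⟩
  have h1 : ∀ (c : F2) (i j k : ℕ),
      AdjoinRoot.of F0 (C (C c)) * mon i j k ∈ M := by
    intro c i j k
    have hc : c = 0 ∨ c = 1 := by revert c; decide
    rcases hc with rfl | rfl
    · rw [map_zero, map_zero, map_zero, zero_mul]; exact M.zero_mem
    · rw [map_one, map_one, map_one, one_mul]; exact hm i j k
  have h2 : ∀ (c : F2[X]) (j k : ℕ), AdjoinRoot.of F0 (C c) * (be ^ j * ga ^ k) ∈ M := by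
    intro c j k
    induction c using Polynomial.induction_on' with
    | add p q hp hq => rw [map_add, map_add, add_mul]; exact M.add_mem hp hq
    | monomial n a =>
      have := h1 a n j k
      rw [← C_mul_X_pow_eq_monomial, map_mul, map_mul, map_pow, map_pow]
      convert this using 1
      simp only [mon, al]; ring
  have h3 : ∀ (c : P0) (k : ℕ), AdjoinRoot.of F0 c * ga ^ k ∈ M := by
    intro c k
    induction c using Polynomial.induction_on' with
    | add p q hp hq => rw [map_add, add_mul]; exact M.add_mem hp hq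
    | monomial n a =>
      have := h2 a n k
      rw [← C_mul_X_pow_eq_monomial, map_mul, map_pow]
      convert this using 1
      simp only [be]; ring
  induction x using AdjoinRoot.induction_on with
  | ih p =>
    induction p using Polynomial.induction_on' with
    | add p q hp hq => rw [map_add]; exact M.add_mem hp hq
    | monomial n a =>
      have := h3 a n
      rw [← C_mul_X_pow_eq_monomial, map_mul, map_pow, AdjoinRoot.mk_C, AdjoinRoot.mk_X]
      exact this

/-- evaluation at the vertex -/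
noncomputable def ev : R0 →+* F2 :=
  AdjoinRoot.lift (eval₂RingHom (eval₂RingHom (RingHom.id F2) 0) 0) 0 (by rw [eval_F0]; simp)

lemma ev_al : ev al = 0 := by simp [ev, al]
lemma ev_be : ev be = 0 := by simp [ev, be]
lemma ev_ga : ev ga = 0 := by simp [ev, ga]

/-- weights for a grading of the Fermat ring -/
structure Wt (Γ : Type) [AddCommGroup Γ] where
  a : Γ
  b : Γ
  c : Γ
  hab : 3 • a = 3 • c
  hbc : 3 • b = 3 • c

variable {Γ : Type} [AddCommGroup Γ] (w : Wt Γ)

/-- the coaction of a grading -/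
noncomputable def th : R0 →+* AddMonoidAlgebra R0 Γ :=
  AdjoinRoot.lift
    (eval₂RingHom (eval₂RingHom
      (AddMonoidAlgebra.singleZeroRingHom.comp
        ((AdjoinRoot.of F0).comp (C.comp C))) (AddMonoidAlgebra.single w.a al))
      (AddMonoidAlgebra.single w.b be))
    (AddMonoidAlgebra.single w.c ga) (by
      rw [eval_F0]
      simp only [eval₂_X, eval₂_C, coe_eval₂RingHom,
        AddMonoidAlgebra.single_pow, w.hab, w.hbc, ← AddMonoidAlgebra.single_add]
      rw [fermat, AddMonoidAlgebra.single_zero])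

lemma th_al : th w al = AddMonoidAlgebra.single w.a al := by simp [th, al]
lemma th_be : th w be = AddMonoidAlgebra.single w.b be := by simp [th, be]
lemma th_ga : th w ga = AddMonoidAlgebra.single w.c ga := by simp [th, ga]

/-- homogeneous component -/
noncomputable def pr (d : Γ) : R0 →+ R0 where
  toFun x := (th w x).coeff d
  map_zero' := by simp
  map_add' x y := by simp

lemma pr_apply (d : Γ) (x : R0) : pr w d x = (th w x).coeff d := rfl

/-- homogeneous elements -/
def Hm (d : Γ) (x : R0) : Prop := th w x = AddMonoidAlgebra.single d x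

lemma Hm.zero (d : Γ) : Hm w d 0 := by simp [Hm]

variable {w}

lemma Hm.add {d : Γ} {x y : R0} (hx : Hm w d x) (hy : Hm w d y) : Hm w d (x + y) := by
  unfold Hm at *; rw [map_add, hx, hy, AddMonoidAlgebra.single_add]

lemma Hm.sub {d : Γ} {x y : R0} (hx : Hm w d x) (hy : Hm w d y) : Hm w d (x - y) := by
  unfold Hm at *; rw [map_sub, hx, hy, AddMonoidAlgebra.single_sub]

lemma Hm.mul {d e : Γ} {x y : R0} (hx : Hm w d x) (hy : Hm w e y) : Hm w (d + e) (x * y) := by
  unfold Hm at *; rw [map_mul, hx, hy, AddMonoidAlgebra.single_mul_single]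

lemma Hm.pow {d : Γ} {x : R0} (hx : Hm w d x) (n : ℕ) : Hm w (n • d) (x ^ n) := by
  unfold Hm at *; rw [map_pow, hx, AddMonoidAlgebra.single_pow]

lemma Hm.cast {d e : Γ} {x : R0} (hx : Hm w d x) (h : d = e) : Hm w e x := h ▸ hx

lemma Hm.pr_mul {e : Γ} {y : R0} (hy : Hm w e y) (d : Γ) (x : R0) :
    pr w d (x * y) = pr w (d - e) x * y := by
  rw [pr_apply, pr_apply, map_mul, hy, AddMonoidAlgebra.coeff_mul_single_apply, sub_eq_add_neg]

lemma Hm.pr_self {d : Γ} {x : R0} (hx : Hm w d x) : pr w d x = x := by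
  rw [pr_apply, hx]; simp

lemma Hm.pr_ne {d e : Γ} {x : R0} (hx : Hm w d x) (h : d ≠ e) : pr w e x = 0 := by
  rw [pr_apply, hx]; simp [Finsupp.single_eq_of_ne' h]

variable (w)

lemma hm_al : Hm w w.a al := th_al w
lemma hm_be : Hm w w.b be := th_be w
lemma hm_ga : Hm w w.c ga := th_ga w

lemma hm_one : Hm w 0 1 := by
  unfold Hm; rw [map_one, AddMonoidAlgebra.one_def]

lemma hm_mon (i j k : ℕ) : Hm w (i • w.a + j • w.b + k • w.c) (mon i j k) :=
  (((hm_al w).pow i).mul ((hm_be w).pow j)).mul ((hm_ga w).pow k)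

/-- induction principle for homogeneous components -/
lemma pr_ind (d : Γ) (p : R0 → Prop) (h0 : p 0) (hadd : ∀ x y, p x → p y → p (x + y))
    (hm : ∀ i j k, i • w.a + j • w.b + k • w.c = d → p (mon i j k)) (x : R0) : p (pr w d x) := by
  have hx := mon_closure x
  induction hx using AddSubmonoid.closure_induction with
  | mem y hy =>
    obtain ⟨i, j, k, rfl⟩ := hy
    by_cases h : i • w.a + j • w.b + k • w.c = d
    · rw [((hm_mon w i j k).cast h).pr_self]; exact hm i j k h
    · rw [(hm_mon w i j k).pr_ne h]; exact h0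
  | zero => rw [map_zero]; exact h0
  | add x y _ _ hx hy => rw [map_add]; exact hadd _ _ hx hy

lemma hm_pr (d : Γ) (x : R0) : Hm w d (pr w d x) :=
  pr_ind w d (Hm w d) (Hm.zero w d) (fun _ _ => Hm.add) (fun i j k h => (hm_mon w i j k).cast h) x

end Pool.Agent.MP_961ca8_al.H3
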