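import Mathlib

namespace Pool.Agent.MP_961ca8_al.H3

variable {Q : Type*} [CommRing Q]

/-- dot product of triples -/
def dot (x y : Fin 3 → Q) : Q := x 0 * y 0 + x 1 * y 1 + x 2 * y 2

/-- cross product of triples -/
def crs (x y : Fin 3 → Q) : Fin 3 → Q :=
  ![x 1 * y 2 - x 2 * y 1, x 2 * y 0 - x 0 * y 2, x 0 * y 1 - x 1 * y 0]

@[simp] lemma crs0 (x y : Fin 3 → Q) : crs x y 0 = x 1 * y 2 - x 2 * y 1 := rfl
@[simp] lemma crs1 (x y : Fin 3 → Q) : crs x y 1 = x 2 * y 0 - x 0 * y 2 := rfl
@[simp] lemma crs2 (x y : Fin 3 → Q) : crs x y 2 = x 0 * y 1 - x 1 * y 0 := rfl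

lemma all3 {p : Fin 3 → Prop} (h0 : p 0) (h1 : p 1) (h2 : p 2) : ∀ j, p j := by
  intro j; fin_cases j
  · exact h0
  · exact h1
  · exact h2

/-- `a` is a nonzerodivisor and `b` is a nonzerodivisor modulo `a`. -/
structure RegPair (a b : Q) : Prop where
  r1 : ∀ x, a * x = 0 → x = 0
  r2 : ∀ x y, b * x = a * y → ∃ z, x = a * z

lemma cramer (g h A w : Fin 3 → Q) (j : Fin 3) :
    dot A (crs g h) * w j = dot A (crs w h) * g j + dot A (crs g w) * h j
      + dot w (crs g h) * A j := by
  revert j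
  refine all3 ?_ ?_ ?_ <;> simp only [dot, crs0, crs1, crs2] <;> ring

/-- syzygies of the minors are generated by the rows -/
lemma syz {a b : Q} (hab : RegPair a b) (g h A B w : Fin 3 → Q)
    (hA : a = dot A (crs g h)) (hB : b = dot B (crs g h)) (hw : dot w (crs g h) = 0) :
    ∃ l m : Q, ∀ j, w j = l * g j + m * h j := by
  have c1 : ∀ j, a * w j = dot A (crs w h) * g j + dot A (crs g w) * h j := by
    intro j; have := cramer g h A w j; rw [hw, ← hA] at this; rw [this]; ring
  have c2 : ∀ j, b * w j = dot B (crs w h) * g j + dot B (crs g w) * h j := by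
    intro j; have := cramer g h B w j; rw [hw, ← hB] at this; rw [this]; ring
  set l1 := dot A (crs w h)
  set m1 := dot A (crs g w)
  set l2 := dot B (crs w h)
  set m2 := dot B (crs g w)
  have e : ∀ j, (b * l1 - a * l2) * g j + (b * m1 - a * m2) * h j = 0 := by
    intro j; linear_combination a * c2 j - b * c1 j
  have el : a * (b * l1 - a * l2) = 0 := by
    have e0 := e 0; have e1 := e 1; have e2 := e 2
    have : a * (b * l1 - a * l2) = dot A (crs g h) * (b * l1 - a * l2) := by rw [← hA]
    rw [this]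
    simp only [dot, crs0, crs1, crs2]
    linear_combination (A 1 * h 2 * (-1) + A 2 * h 1) * e0 + (A 0 * h 2 - A 2 * h 0) * e1
      + (A 1 * h 0 - A 0 * h 1) * e2
  have em : a * (b * m1 - a * m2) = 0 := by
    have e0 := e 0; have e1 := e 1; have e2 := e 2
    have : a * (b * m1 - a * m2) = dot A (crs g h) * (b * m1 - a * m2) := by rw [← hA]
    rw [this]
    simp only [dot, crs0, crs1, crs2]
    linear_combination (A 1 * g 2 - A 2 * g 1) * e0 + (A 2 * g 0 - A 0 * g 2) * e1
      + (A 0 * g 1 - A 1 * g 0) * e2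
  obtain ⟨l, hl⟩ := hab.r2 l1 l2 (by linear_combination hab.r1 _ el)
  obtain ⟨m, hm⟩ := hab.r2 m1 m2 (by linear_combination hab.r1 _ em)
  refine ⟨l, m, fun j => ?_⟩
  have : a * (w j - (l * g j + m * h j)) = 0 := by
    have := c1 j; rw [hl, hm] at this; linear_combination this
  linear_combination hab.r1 _ this

/-- a vector orthogonal to both rows is a multiple of the vector of minors -/
lemma par {a b : Q} (hab : RegPair a b) (g h A B y : Fin 3 → Q)
    (hA : a = dot A (crs g h)) (hB : b = dot B (crs g h)) (hg : dot y g = 0) (hh : dot y h = 0) :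
    ∃ l : Q, ∀ j, y j = l * crs g h j := by
  have key : ∀ (C : Fin 3 → Q) j, dot C (crs g h) * y j = dot C y * crs g h j := by
    intro C
    simp only [dot] at hg hh
    refine all3 ?_ ?_ ?_ <;> simp only [dot, crs0, crs1, crs2]
    · linear_combination (C 1 * g 2 - C 2 * g 1) * hh + (C 2 * h 1 - C 1 * h 2) * hg
    · linear_combination (C 2 * g 0 - C 0 * g 2) * hh + (C 0 * h 2 - C 2 * h 0) * hg
    · linear_combination (C 0 * g 1 - C 1 * g 0) * hh + (C 1 * h 0 - C 0 * h 1) * hg
  have k1 : ∀ j, a * y j = dot A y * crs g h j := fun j => by rw [hA]; exact key A j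
  have k2 : ∀ j, b * y j = dot B y * crs g h j := fun j => by rw [hB]; exact key B j
  have e : a * (b * dot A y - a * dot B y) = 0 := by
    have : a * (b * dot A y - a * dot B y)
        = dot A (crs g h) * (b * dot A y - a * dot B y) := by rw [← hA]
    rw [this]
    have h0 := k1 0; have h1 := k1 1; have h2 := k1 2
    have i0 := k2 0; have i1 := k2 1; have i2 := k2 2
    set u := dot A y
    set v := dot B y
    simp only [dot]
    linear_combination A 0 * (a * i0 - b * h0) + A 1 * (a * i1 - b * h1)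
      + A 2 * (a * i2 - b * h2)
  obtain ⟨l, hl⟩ := hab.r2 (dot A y) (dot B y) (by linear_combination hab.r1 _ e)
  refine ⟨l, fun j => ?_⟩
  have : a * (y j - l * crs g h j) = 0 := by
    have := k1 j; rw [hl] at this; linear_combination this
  linear_combination hab.r1 _ this

/-- Frobenius in a ring where two vanishes -/
lemma add_pow_two_pow (h2 : (2 : Q) = 0) (e : ℕ) (x y : Q) :
    (x + y) ^ 2 ^ e = x ^ 2 ^ e + y ^ 2 ^ e := by
  induction e with
  | zero => simp
  | succ e ih =>
    rw [pow_succ, pow_mul, pow_mul, pow_mul, ih]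
    linear_combination (x ^ 2 ^ e * y ^ 2 ^ e) * h2

/-- iterated Frobenius as a ring map -/
def frob (h2 : (2 : Q) = 0) (e : ℕ) : Q →+* Q where
  toFun x := x ^ 2 ^ e
  map_one' := one_pow _
  map_mul' x y := mul_pow x y _
  map_zero' := zero_pow (by positivity)
  map_add' := add_pow_two_pow h2 e

lemma frob_apply (h2 : (2 : Q) = 0) (e : ℕ) (x : Q) : frob h2 e x = x ^ 2 ^ e := rfl

lemma map_dot {Q' : Type*} [CommRing Q'] (φ : Q →+* Q') (x y : Fin 3 → Q) :
    φ (dot x y) = dot (fun j => φ (x j)) (fun j => φ (y j)) := by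
  simp [dot]

lemma map_crs {Q' : Type*} [CommRing Q'] (φ : Q →+* Q') (x y : Fin 3 → Q) (j : Fin 3) :
    φ (crs x y j) = crs (fun j => φ (x j)) (fun j => φ (y j)) j := by
  revert j
  refine all3 ?_ ?_ ?_ <;> simp

end Pool.Agent.MP_961ca8_al.H3
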